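import Pool.Agent.Lib.MP_228c3b_gt.Kunneth

/-!
# MP_228c3b_gt: the complexes of finite covers, and of finite covers of products
-/

set_option autoImplicit false

namespace Pool.Agent.Lib.MP_228c3b_gt

open Module
open scoped Classical

section Rep

variable {G : Type} [Group G] (N : Subgroup G) [N.Normal] [N.FiniteIndex]

/-- The quotient by a subgroup of finite index is finite. -/
noncomputable local instance instFintypeQ : Fintype (G ⧸ N) := Fintype.ofFinite _

/-- The permutation matrix of the right multiplication. -/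
noncomputable def permHom : G →* Matrix (G ⧸ N) (G ⧸ N) ℤ where
  toFun g := Matrix.of fun q r => if q * (g : G ⧸ N) = r then 1 else 0
  map_one' := by
    ext q r
    simp [Matrix.one_apply]
  map_mul' g h := by
    ext q r
    rw [Matrix.mul_apply, Finset.sum_eq_single (q * (g : G ⧸ N))]
    · simp only [Matrix.of_apply, if_true, QuotientGroup.mk_mul, mul_assoc]
      by_cases h : q * ((g : G ⧸ N) * (h : G ⧸ N)) = r
      · simp [h]
      · simp [h]
    · intro b _ hb
      simp [hb.symm]
    · simp

/-- The group ring acts on the functions on `G / N`. -/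
noncomputable def rep : MonoidAlgebra ℤ G →+* Matrix (G ⧸ N) (G ⧸ N) ℤ :=
  (MonoidAlgebra.lift ℤ (Matrix (G ⧸ N) (G ⧸ N) ℤ) G (permHom N)).toRingHom

theorem rep_single (g : G) (c : ℤ) (q r : G ⧸ N) :
    rep N (MonoidAlgebra.single g c) q r = if q * (g : G ⧸ N) = r then c else 0 := by
  change (MonoidAlgebra.lift ℤ (Matrix (G ⧸ N) (G ⧸ N) ℤ) G (permHom N)) (MonoidAlgebra.single g c) q r = _
  rw [MonoidAlgebra.lift_single, Matrix.smul_apply]
  simp [permHom]

theorem rep_apply (f : MonoidAlgebra ℤ G) (q r : G ⧸ N) :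
    rep N f q r = f.coeff.sum fun g c => if q * (g : G ⧸ N) = r then c else 0 := by
  change (MonoidAlgebra.lift ℤ (Matrix (G ⧸ N) (G ⧸ N) ℤ) G (permHom N)) f q r = _
  rw [MonoidAlgebra.lift_apply, Finsupp.sum, Finsupp.sum, Matrix.sum_apply]
  refine Finset.sum_congr rfl fun g _ => ?_
  rw [Matrix.smul_apply]
  simp [permHom]

theorem coverMatrix_eq (C : CellComplex G) (a b : C.Cell × (G ⧸ N)) :
    C.coverMatrix N a b = rep N (C.bd a.1 b.1) a.2 b.2 := by
  rw [rep_apply]
  rfl

theorem coverMatrix_graded (C : CellComplex G) :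
    Graded (fun a : C.Cell × (G ⧸ N) => C.deg a.1) (C.coverMatrix N) := by
  intro a b h
  apply C.bd_deg
  intro h0
  apply h
  rw [coverMatrix_eq, h0, map_zero]
  rfl

theorem coverMatrix_sq (C : CellComplex G) : C.coverMatrix N * C.coverMatrix N = 0 := by
  ext a c
  rw [Matrix.mul_apply, Fintype.sum_prod_type]
  have h1 : ∀ b : C.Cell, ∑ q : G ⧸ N, C.coverMatrix N a (b, q) * C.coverMatrix N (b, q) c =
      (rep N (C.bd a.1 b * C.bd b c.1)) a.2 c.2 := by
    intro b
    rw [map_mul, Matrix.mul_apply]
    refine Finset.sum_congr rfl fun q _ => ?_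
    rw [coverMatrix_eq, coverMatrix_eq]
  rw [Finset.sum_congr rfl fun b _ => h1 b, ← Matrix.sum_apply, ← map_sum]
  have h2 := congrFun (congrFun C.bd_sq a.1) c.1
  rw [Matrix.mul_apply] at h2
  rw [h2]
  simp

end Rep

section Prod

variable {G H : Type} [Group G] [Group H] (N : Subgroup G) (N' : Subgroup H) [N.Normal] [N'.Normal]

/-- The quotient of a product. -/
noncomputable def quotHom : ((G × H) ⧸ (N.prod N')) →* (G ⧸ N) × (H ⧸ N') :=
  QuotientGroup.lift (N.prod N') ((QuotientGroup.mk' N).prodMap (QuotientGroup.mk' N')) (by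
    rintro ⟨g, h⟩ hgh
    rw [Subgroup.mem_prod] at hgh
    simpa using hgh)

theorem quotHom_mk (g : G) (h : H) :
    quotHom N N' (QuotientGroup.mk (g, h)) = (QuotientGroup.mk g, QuotientGroup.mk h) := rfl

theorem quotHom_bijective : Function.Bijective (quotHom N N') := by
  constructor
  · rw [injective_iff_map_eq_one]
    intro x hx
    induction x using QuotientGroup.induction_on with
    | H gh =>
      obtain ⟨g, h⟩ := gh
      rw [quotHom_mk, Prod.mk_eq_one] at hx
      rw [QuotientGroup.eq_one_iff] at hx ⊢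
      rw [QuotientGroup.eq_one_iff] at hx
      exact hx
  · rintro ⟨a, b⟩
    induction a using QuotientGroup.induction_on with
    | H g =>
      induction b using QuotientGroup.induction_on with
      | H h => exact ⟨QuotientGroup.mk (g, h), rfl⟩

/-- The quotient of a product is the product of the quotients. -/
noncomputable def quotEquiv : ((G × H) ⧸ (N.prod N')) ≃ (G ⧸ N) × (H ⧸ N') :=
  Equiv.ofBijective _ (quotHom_bijective N N')

variable [N.FiniteIndex] [N'.FiniteIndex] [(N.prod N').FiniteIndex]

omit [N'.FiniteIndex] in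
theorem rep_inl (f : MonoidAlgebra ℤ G) (q r : (G × H) ⧸ (N.prod N')) :
    rep (N.prod N') (inlRing G H f) q r =
      if (quotHom N N' q).2 = (quotHom N N' r).2 then rep N f (quotHom N N' q).1 (quotHom N N' r).1 else 0 := by
  induction f using MonoidAlgebra.induction_linear with
  | zero => simp
  | add a b ha hb =>
    rw [map_add, map_add, map_add, Matrix.add_apply, Matrix.add_apply, ha, hb]
    split_ifs <;> simp
  | single g c =>
    have h1 : inlRing G H (MonoidAlgebra.single g c) = MonoidAlgebra.single (g, (1 : H)) c := by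
      simp [inlRing, MonoidAlgebra.mapDomainRingHom_apply, MonoidAlgebra.mapDomain_single]
    rw [h1, rep_single, rep_single]
    have h2 : (q * (((g, (1 : H)) : G × H) : (G × H) ⧸ (N.prod N')) = r) ↔
        (quotHom N N' q).2 = (quotHom N N' r).2 ∧ (quotHom N N' q).1 * (g : G ⧸ N) = (quotHom N N' r).1 := by
      rw [← (quotHom_bijective N N').1.eq_iff, map_mul, quotHom_mk, Prod.ext_iff]
      simp [and_comm]
    by_cases h3 : (quotHom N N' q).2 = (quotHom N N' r).2
    · by_cases h4 : (quotHom N N' q).1 * (g : G ⧸ N) = (quotHom N N' r).1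
      · rw [if_pos (h2.2 ⟨h3, h4⟩), if_pos h3, if_pos h4]
      · rw [if_neg (fun h => h4 (h2.1 h).2), if_pos h3, if_neg h4]
    · rw [if_neg (fun h => h3 (h2.1 h).1), if_neg h3]

omit [N.FiniteIndex] in
theorem rep_inr (f : MonoidAlgebra ℤ H) (q r : (G × H) ⧸ (N.prod N')) :
    rep (N.prod N') (inrRing G H f) q r =
      if (quotHom N N' q).1 = (quotHom N N' r).1 then rep N' f (quotHom N N' q).2 (quotHom N N' r).2 else 0 := by
  induction f using MonoidAlgebra.induction_linear with
  | zero => simp
  | add a b ha hb =>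
    rw [map_add, map_add, map_add, Matrix.add_apply, Matrix.add_apply, ha, hb]
    split_ifs <;> simp
  | single g c =>
    have h1 : inrRing G H (MonoidAlgebra.single g c) = MonoidAlgebra.single ((1 : G), g) c := by
      simp [inrRing, MonoidAlgebra.mapDomainRingHom_apply, MonoidAlgebra.mapDomain_single]
    rw [h1, rep_single, rep_single]
    have h2 : (q * ((((1 : G), g) : G × H) : (G × H) ⧸ (N.prod N')) = r) ↔
        (quotHom N N' q).1 = (quotHom N N' r).1 ∧ (quotHom N N' q).2 * (g : H ⧸ N') = (quotHom N N' r).2 := by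
      rw [← (quotHom_bijective N N').1.eq_iff, map_mul, quotHom_mk, Prod.ext_iff]
      simp
    by_cases h3 : (quotHom N N' q).1 = (quotHom N N' r).1
    · by_cases h4 : (quotHom N N' q).2 * (g : H ⧸ N') = (quotHom N N' r).2
      · rw [if_pos (h2.2 ⟨h3, h4⟩), if_pos h3, if_pos h4]
      · rw [if_neg (fun h => h4 (h2.1 h).2), if_pos h3, if_neg h4]
    · rw [if_neg (fun h => h3 (h2.1 h).1), if_neg h3]

/-- The cells of the finite cover of the product are the pairs of cells of the finite covers. -/
noncomputable def cellEquiv (C : CellComplex G) (D : CellComplex H) :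
    ((C.prod D).Cell × ((G × H) ⧸ (N.prod N'))) ≃ (C.Cell × (G ⧸ N)) × (D.Cell × (H ⧸ N')) :=
  (Equiv.prodCongr (Equiv.refl (C.Cell × D.Cell)) (quotEquiv N N')).trans
    (Equiv.prodProdProdComm C.Cell D.Cell (G ⧸ N) (H ⧸ N'))

omit [N.FiniteIndex] [N'.FiniteIndex] [(N.prod N').FiniteIndex] in
theorem cellEquiv_apply (C : CellComplex G) (D : CellComplex H)
    (a : (C.prod D).Cell × ((G × H) ⧸ (N.prod N'))) :
    cellEquiv N N' C D a = ((a.1.1, (quotHom N N' a.2).1), (a.1.2, (quotHom N N' a.2).2)) := rfl

/-- The incidence matrix of the finite cover of the product. -/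
theorem coverMatrix_prod (C : CellComplex G) (D : CellComplex H) :
    (C.prod D).coverMatrix (N.prod N') =
      (prodMatrix (fun a : C.Cell × (G ⧸ N) => C.deg a.1) (C.coverMatrix N) (D.coverMatrix N')).submatrix
        (cellEquiv N N' C D) (cellEquiv N N' C D) := by
  ext a b
  rw [Matrix.submatrix_apply, coverMatrix_eq, cellEquiv_apply, cellEquiv_apply, prodMatrix]
  change rep (N.prod N') ((if a.1.2 = b.1.2 then inlRing G H (C.bd a.1.1 b.1.1) else 0) +
    (if a.1.1 = b.1.1 then (-1) ^ C.deg a.1.1 * inrRing G H (D.bd a.1.2 b.1.2) else 0)) a.2 b.2 = _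
  rw [map_add, Matrix.add_apply]
  simp only [coverMatrix_eq, Prod.mk.injEq]
  have hneg : ∀ (k : ℕ) (f : MonoidAlgebra ℤ (G × H)) (q r : (G × H) ⧸ (N.prod N')),
      rep (N.prod N') ((-1) ^ k * f) q r = (-1) ^ k * rep (N.prod N') f q r := by
    intro k f q r
    rcases Nat.even_or_odd k with hk | hk
    · rw [hk.neg_one_pow, hk.neg_one_pow, one_mul, one_mul]
    · rw [hk.neg_one_pow, hk.neg_one_pow, neg_one_mul, neg_one_mul, map_neg, Matrix.neg_apply]
  congr 1
  · by_cases h : a.1.2 = b.1.2
    · rw [if_pos h, rep_inl]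
      simp only [h, true_and]
    · rw [if_neg h, if_neg (fun h' => h h'.1), map_zero]
      rfl
  · by_cases h : a.1.1 = b.1.1
    · rw [if_pos h, hneg, rep_inr]
      simp only [h, true_and, mul_ite, mul_zero]
    · rw [if_neg h, if_neg (fun h' => h h'.1), map_zero]
      rfl

end Prod

end Pool.Agent.Lib.MP_228c3b_gt
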