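import Mathlib

/-!
# MP_228c3b_gt: cellular chain complexes of universal covers and of finite covers, L2-chains

A finite complex `X` with fundamental group `G` is given by the cellular chain complex of its universal
cover with a chosen basis: finitely many cells and a boundary matrix over the integral group ring `ℤ[G]`.
-/

set_option autoImplicit false

namespace Pool.Agent.Lib.MP_228c3b_gt

open Filter Topology

/-! ### Based complexes: finitely many cells and an integral incidence matrix -/

section Based

variable {ι : Type} [Fintype ι]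

/-- The chains of degree `n` with coefficients in `R`: functions on the cells which vanish on the cells of
degree different from `n`. -/
def chains (R : Type) [CommRing R] (deg : ι → ℕ) (n : ℕ) : Submodule R (ι → R) where
  carrier := {x | ∀ i, deg i ≠ n → x i = 0}
  add_mem' := fun {x y} hx hy i hi => by simp [hx i hi, hy i hi]
  zero_mem' := fun _ _ => rfl
  smul_mem' := fun c x hx i hi => by simp [hx i hi]

/-- The boundary map with coefficients in `R`: `(∂x) j = ∑ i, x i * D i j`. -/
def boundaryMap (R : Type) [CommRing R] (D : Matrix ι ι ℤ) : (ι → R) →ₗ[R] (ι → R) :=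
  Matrix.vecMulLinear (D.map (Int.cast : ℤ → R))

/-- Cycles of degree `n`. -/
def cycles (R : Type) [CommRing R] (deg : ι → ℕ) (D : Matrix ι ι ℤ) (n : ℕ) : Submodule R (ι → R) :=
  chains R deg n ⊓ LinearMap.ker (boundaryMap R D)

/-- Boundaries of degree `n`. -/
def boundaries (R : Type) [CommRing R] (deg : ι → ℕ) (D : Matrix ι ι ℤ) (n : ℕ) : Submodule R (ι → R) :=
  (chains R deg (n + 1)).map (boundaryMap R D)

/-- The homology `H_n` with coefficients in `R`: cycles modulo boundaries. -/
abbrev Homology (R : Type) [CommRing R] (deg : ι → ℕ) (D : Matrix ι ι ℤ) (n : ℕ) : Type :=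
  ↥(cycles R deg D n) ⧸ (boundaries R deg D n).comap (cycles R deg D n).subtype

/-- The `n`-th Betti number with coefficients in a field. -/
noncomputable def bettiOf (K : Type) [Field K] (deg : ι → ℕ) (D : Matrix ι ι ℤ) (n : ℕ) : ℕ :=
  Module.finrank K (Homology K deg D n)

/-- The order of the torsion subgroup of `H_n` with integral coefficients. -/
noncomputable def torsOf (deg : ι → ℕ) (D : Matrix ι ι ℤ) (n : ℕ) : ℕ :=
  Nat.card (Submodule.torsion ℤ (Homology ℤ deg D n))

end Based

/-! ### Complexes over the group ring -/

/-- The cellular chain complex of the universal cover of a finite complex with fundamental group `G`: a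
finite set of cells with degrees and a boundary matrix over the integral group ring; the boundary of the
cell `σ` is `∑ τ, bd σ τ • τ`. -/
structure CellComplex (G : Type) [Group G] where
  /-- the cells (of the finite complex; one chosen lift of each) -/
  Cell : Type
  [fintypeCell : Fintype Cell]
  [decEqCell : DecidableEq Cell]
  /-- the dimension of a cell -/
  deg : Cell → ℕ
  /-- the boundary matrix -/
  bd : Matrix Cell Cell (MonoidAlgebra ℤ G)
  /-- the boundary of a cell of dimension `n + 1` involves only cells of dimension `n` -/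
  bd_deg : ∀ σ τ, bd σ τ ≠ 0 → deg σ = deg τ + 1
  /-- `∂ ∘ ∂ = 0` -/
  bd_sq : bd * bd = 0

namespace CellComplex

attribute [instance] fintypeCell decEqCell

variable {G : Type} [Group G] (C : CellComplex G)

/-- The dimension: the largest degree of a cell. -/
def dim : ℕ := Finset.univ.sup C.deg

open Classical in
/-- The incidence matrix of the finite cover with group `N`: its cells are the pairs `(σ, q)`, `q` in `G / N`,
and the incidence number of `(σ, q)` and `(τ, r)` is the sum of the coefficients of `bd σ τ` at the `g` with
`q g = r`. -/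
noncomputable def coverMatrix (N : Subgroup G) [N.Normal] :
    Matrix (C.Cell × (G ⧸ N)) (C.Cell × (G ⧸ N)) ℤ :=
  fun a b => (C.bd a.1 b.1).coeff.sum fun g c => if a.2 * (g : G ⧸ N) = b.2 then c else 0

/-- `b_n(X[N]; K)`: the `n`-th Betti number with coefficients in `K` of the finite cover with group `N`. -/
noncomputable def betti (K : Type) [Field K] (N : Subgroup G) [N.Normal] [N.FiniteIndex] (n : ℕ) : ℕ :=
  letI : Fintype (G ⧸ N) := Fintype.ofFinite _
  bettiOf K (fun a : C.Cell × (G ⧸ N) => C.deg a.1) (C.coverMatrix N) n

/-- `|tors H_n(X[N]; ℤ)|`: the order of the torsion subgroup of the `n`-th integral homology group of the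
finite cover with group `N`. -/
noncomputable def torsionOrder (N : Subgroup G) [N.Normal] [N.FiniteIndex] (n : ℕ) : ℕ :=
  letI : Fintype (G ⧸ N) := Fintype.ofFinite _
  torsOf (fun a : C.Cell × (G ⧸ N) => C.deg a.1) (C.coverMatrix N) n

/-- The universal cover has no nonzero harmonic `L²`-chain of degree `n`: if the square summable functions
`x σ` on `G`, one for each cell, zero for the cells of degree different from `n`, satisfy `∂ x = 0` and
`∂* x = 0`, then they vanish. (The `n`-th `L²`-Betti number is the von Neumann dimension of the space of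
harmonic `L²`-chains of degree `n`, so this says that the `n`-th `L²`-Betti number vanishes.) -/
def L2BettiVanishes (n : ℕ) : Prop :=
  ∀ x : C.Cell → G → ℂ, (∀ σ, Memℓp (x σ) 2) → (∀ σ, C.deg σ ≠ n → x σ = 0) →
    (∀ τ g, ∑ σ, (C.bd σ τ).coeff.sum (fun h c => (c : ℂ) * x σ (g * h⁻¹)) = 0) →
    (∀ σ g, ∑ τ, (C.bd σ τ).coeff.sum (fun h c => (c : ℂ) * x τ (g * h)) = 0) →
    x = 0

end CellComplex

/-- The inclusions of the group rings of the factors in the group ring of a product. -/
noncomputable def inlRing (G H : Type) [Group G] [Group H] : MonoidAlgebra ℤ G →+* MonoidAlgebra ℤ (G × H) :=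
  MonoidAlgebra.mapDomainRingHom ℤ (MonoidHom.inl G H)

/-- The inclusions of the group rings of the factors in the group ring of a product. -/
noncomputable def inrRing (G H : Type) [Group G] [Group H] : MonoidAlgebra ℤ H →+* MonoidAlgebra ℤ (G × H) :=
  MonoidAlgebra.mapDomainRingHom ℤ (MonoidHom.inr G H)

theorem inlRing_commute_inrRing {G H : Type} [Group G] [Group H] (x : MonoidAlgebra ℤ G)
    (y : MonoidAlgebra ℤ H) : Commute (inlRing G H x) (inrRing G H y) := by
  induction x using MonoidAlgebra.induction_linear with
  | zero => simp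
  | add a b ha hb => rw [map_add]; exact ha.add_left hb
  | single g c =>
    induction y using MonoidAlgebra.induction_linear with
    | zero => simp
    | add a b ha hb => rw [map_add]; exact ha.add_right hb
    | single h d =>
      simp [inlRing, inrRing, Commute, SemiconjBy, MonoidAlgebra.mapDomainRingHom_apply,
        MonoidAlgebra.mapDomain_single, MonoidAlgebra.single_mul_single, mul_comm c d]

namespace CellComplex

variable {G H : Type} [Group G] [Group H]

/-- The boundary matrix of a product: `∂ (σ × σ') = ∂σ × σ' + (-1) ^ deg σ • σ × ∂σ'`. -/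
noncomputable def prodBd (C : CellComplex G) (D : CellComplex H) :
    Matrix (C.Cell × D.Cell) (C.Cell × D.Cell) (MonoidAlgebra ℤ (G × H)) :=
  fun a b => (if a.2 = b.2 then inlRing G H (C.bd a.1 b.1) else 0) +
    (if a.1 = b.1 then (-1) ^ C.deg a.1 * inrRing G H (D.bd a.2 b.2) else 0)

theorem prodBd_deg (C : CellComplex G) (D : CellComplex H) (a b : C.Cell × D.Cell)
    (h : C.prodBd D a b ≠ 0) : C.deg a.1 + D.deg a.2 = C.deg b.1 + D.deg b.2 + 1 := by
  by_contra hne
  apply h
  have h1 : (if a.2 = b.2 then inlRing G H (C.bd a.1 b.1) else 0) = 0 := by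
    split_ifs with hab
    · have : C.bd a.1 b.1 = 0 := by
        by_contra h0
        have := C.bd_deg _ _ h0
        rw [hab] at hne
        omega
      rw [this, map_zero]
    · rfl
  have h2 : (if a.1 = b.1 then (-1) ^ C.deg a.1 * inrRing G H (D.bd a.2 b.2) else 0) = 0 := by
    split_ifs with hab
    · have : D.bd a.2 b.2 = 0 := by
        by_contra h0
        have := D.bd_deg _ _ h0
        rw [hab] at hne
        omega
      rw [this, map_zero, mul_zero]
    · rfl
  simp only [prodBd, h1, h2, add_zero]

theorem prodBd_sq (C : CellComplex G) (D : CellComplex H) : C.prodBd D * C.prodBd D = 0 := by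
  set A : Matrix (C.Cell × D.Cell) (C.Cell × D.Cell) (MonoidAlgebra ℤ (G × H)) :=
    fun a b => if a.2 = b.2 then inlRing G H (C.bd a.1 b.1) else 0 with hAdef
  set B : Matrix (C.Cell × D.Cell) (C.Cell × D.Cell) (MonoidAlgebra ℤ (G × H)) :=
    fun a b => if a.1 = b.1 then (-1) ^ C.deg a.1 * inrRing G H (D.bd a.2 b.2) else 0 with hBdef
  have hsplit : C.prodBd D = A + B := rfl
  have hAA : A * A = 0 := by
    ext a c : 1
    rw [Matrix.mul_apply, Fintype.sum_prod_type]
    simp only [hAdef, ite_mul, zero_mul, mul_ite, mul_zero, Finset.sum_ite_eq', Finset.mem_univ, if_true,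
      Matrix.zero_apply]
    by_cases hac : a.2 = c.2
    · simp only [hac, if_true]
      have := congrFun (congrFun C.bd_sq a.1) c.1
      rw [Matrix.mul_apply] at this
      simp only [← map_mul, ← map_sum]
      rw [this]
      simp
    · simp [hac]
  have hBB : B * B = 0 := by
    ext a c : 1
    rw [Matrix.mul_apply, Fintype.sum_prod_type_right]
    simp only [hBdef, ite_mul, zero_mul, mul_ite, mul_zero, Finset.sum_ite_eq', Finset.mem_univ, if_true,
      Matrix.zero_apply]
    by_cases hac : a.1 = c.1
    · simp only [hac, if_true]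
      have := congrFun (congrFun D.bd_sq a.2) c.2
      rw [Matrix.mul_apply] at this
      have e : ∀ b, (-1 : MonoidAlgebra ℤ (G × H)) ^ C.deg c.1 * inrRing G H (D.bd a.2 b) *
          ((-1) ^ C.deg c.1 * inrRing G H (D.bd b c.2)) = inrRing G H (D.bd a.2 b * D.bd b c.2) := by
        intro b
        have hs : inrRing G H (D.bd a.2 b) * (-1) ^ C.deg c.1 = (-1) ^ C.deg c.1 * inrRing G H (D.bd a.2 b) :=
          ((Commute.neg_one_right _).pow_right _).eq
        rw [mul_assoc, ← mul_assoc (inrRing G H (D.bd a.2 b)), hs, mul_assoc, ← mul_assoc, ← pow_add,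
          Even.neg_one_pow ⟨_, rfl⟩, one_mul, map_mul]
      simp only [e, ← map_sum]
      rw [this]
      simp
    · simp [hac]
  have hAB : A * B + B * A = 0 := by
    ext a c : 1
    have e1 : ∀ f : C.Cell → D.Cell → MonoidAlgebra ℤ (G × H),
        (∑ x, ∑ y, if x = c.1 then (if a.2 = y then f x y else 0) else 0) = f c.1 a.2 := by
      intro f
      rw [Finset.sum_eq_single c.1]
      · simp
      · intro b _ hb
        simp [hb]
      · simp
    have e2 : ∀ f : C.Cell → D.Cell → MonoidAlgebra ℤ (G × H),
        (∑ y, ∑ x, if y = c.2 then (if a.1 = x then f x y else 0) else 0) = f a.1 c.2 := by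
      intro f
      rw [Finset.sum_eq_single c.2]
      · simp
      · intro b _ hb
        simp [hb]
      · simp
    rw [Matrix.add_apply, Matrix.mul_apply, Matrix.mul_apply, Fintype.sum_prod_type, Fintype.sum_prod_type_right]
    simp only [hAdef, hBdef, ite_mul, zero_mul, mul_ite, mul_zero, Matrix.zero_apply, e1, e2]
    by_cases h0 : C.bd a.1 c.1 = 0
    · rw [h0, map_zero, zero_mul, mul_zero, add_zero]
    · have hd := C.bd_deg _ _ h0
      have hc := (inlRing_commute_inrRing (C.bd a.1 c.1) (D.bd a.2 c.2)).eq
      have hs : inlRing G H (C.bd a.1 c.1) * (-1) ^ C.deg c.1 = (-1) ^ C.deg c.1 * inlRing G H (C.bd a.1 c.1) :=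
        ((Commute.neg_one_right _).pow_right _).eq
      rw [← mul_assoc, hs, hd, pow_succ, mul_assoc, mul_assoc, mul_assoc, ← hc]
      simp
  rw [hsplit, add_mul, mul_add, mul_add, hAA, hBB, zero_add, add_zero, hAB]

/-- The cellular chain complex of the universal cover of the product `X × Y`: the tensor product of the
complexes of the factors, over the group ring of `G × H`. -/
noncomputable def prod (C : CellComplex G) (D : CellComplex H) : CellComplex (G × H) where
  Cell := C.Cell × D.Cell
  deg a := C.deg a.1 + D.deg a.2
  bd := C.prodBd D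
  bd_deg := C.prodBd_deg D
  bd_sq := C.prodBd_sq D

end CellComplex

/-- A finite index normal chain with trivial intersection. -/
structure NormalChain (G : Type) [Group G] where
  /-- the subgroups `G_i` -/
  grp : ℕ → Subgroup G
  normal : ∀ i, (grp i).Normal
  finiteIndex : ∀ i, (grp i).FiniteIndex
  zero : grp 0 = ⊤
  antitone : Antitone grp
  trivial : ⨅ i, grp i = ⊥

attribute [instance] NormalChain.normal NormalChain.finiteIndex

/-- The chain `G_i × G_i` in `G × G`. -/
def NormalChain.square {G : Type} [Group G] (N : NormalChain G) : NormalChain (G × G) where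
  grp i := (N.grp i).prod (N.grp i)
  normal i := Subgroup.prod_normal _ _
  finiteIndex i := by
    constructor
    rw [Subgroup.index_prod]
    exact mul_ne_zero (N.finiteIndex i).index_ne_zero (N.finiteIndex i).index_ne_zero
  zero := by rw [N.zero, Subgroup.top_prod_top]
  antitone i j hij := Subgroup.prod_mono (N.antitone hij) (N.antitone hij)
  trivial := by
    rw [eq_bot_iff]
    rintro ⟨a, b⟩ h
    rw [Subgroup.mem_iInf] at h
    have ha : a ∈ ⨅ i, N.grp i := by
      rw [Subgroup.mem_iInf]
      exact fun i => (Subgroup.mem_prod.1 (h i)).1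
    have hb : b ∈ ⨅ i, N.grp i := by
      rw [Subgroup.mem_iInf]
      exact fun i => (Subgroup.mem_prod.1 (h i)).2
    rw [N.trivial, Subgroup.mem_bot] at ha hb
    rw [ha, hb]
    exact Subgroup.one_mem _

/-- `ln |tors H_n(X[i]; ℤ)| / [G : G_i]` tends to `0`. -/
def TorsionGrowthVanishes {G : Type} [Group G] (C : CellComplex G) (N : NormalChain G) (n : ℕ) : Prop :=
  Tendsto (fun i => Real.log (C.torsionOrder (N.grp i) n : ℝ) / ((N.grp i).index : ℝ)) atTop (𝓝 0)

end Pool.Agent.Lib.MP_228c3b_gt
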