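import Pool.Agent.Lib.MP_228c3b_gt.Integral

/-!
# MP_228c3b_gt: harmonic chains of a finite complex
-/

set_option autoImplicit false

namespace Pool.Agent.Lib.MP_228c3b_gt

open Module

section Harmonic

variable {ι : Type} [Fintype ι] {deg : ι → ℕ} {D : Matrix ι ι ℤ}

/-- There is a harmonic chain of norm at most one with a large coefficient. -/
theorem exists_harmonic (hg : Graded deg D) (hsq : D * D = 0) (n : ℕ) (hb : 0 < bettiOf ℝ deg D n) :
    ∃ (e : ι) (u : ι → ℝ), u ∈ chains ℝ deg n ∧ boundaryMap ℝ D u = 0 ∧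
      (∀ a, ∑ b, (D a b : ℝ) * u b = 0) ∧ ∑ a, u a ^ 2 ≤ 1 ∧
      (bettiOf ℝ deg D n : ℝ) ≤ u e * Fintype.card ι := by
  classical
  let E := EuclideanSpace ℝ ι
  let e₂ : E ≃ₗ[ℝ] (ι → ℝ) := WithLp.linearEquiv 2 ℝ (ι → ℝ)
  let Z : Submodule ℝ E := (cycles ℝ deg D n).comap (e₂ : E →ₗ[ℝ] (ι → ℝ))
  let B : Submodule ℝ E := (boundaries ℝ deg D n).comap (e₂ : E →ₗ[ℝ] (ι → ℝ))
  have hBZ : B ≤ Z := Submodule.comap_mono (boundaries_le_cycles ℝ hg hsq n)
  have hdim := Submodule.finrank_add_inf_finrank_orthogonal hBZ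
  set H : Submodule ℝ E := Bᗮ ⊓ Z with hH
  have hZ : finrank ℝ ↥Z = finrank ℝ ↥(cycles ℝ deg D n) := (LinearEquiv.ofSubmodule' e₂ _).finrank_eq
  have hB : finrank ℝ ↥B = finrank ℝ ↥(boundaries ℝ deg D n) := (LinearEquiv.ofSubmodule' e₂ _).finrank_eq
  have h1 : finrank ℝ (Homology ℝ deg D n) +
      finrank ℝ ↥((boundaries ℝ deg D n).comap (cycles ℝ deg D n).subtype) =
      finrank ℝ ↥(cycles ℝ deg D n) := Submodule.finrank_quotient_add_finrank _
  have h2 : finrank ℝ ↥((boundaries ℝ deg D n).comap (cycles ℝ deg D n).subtype) =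
      finrank ℝ ↥(boundaries ℝ deg D n) :=
    (Submodule.comapSubtypeEquivOfLe (boundaries_le_cycles ℝ hg hsq n)).finrank_eq
  have hHdim : finrank ℝ ↥H = bettiOf ℝ deg D n := by
    change _ = finrank ℝ (Homology ℝ deg D n)
    omega
  set k := finrank ℝ ↥H with hk
  let b : OrthonormalBasis (Fin k) ℝ ↥H := stdOrthonormalBasis ℝ ↥H
  let h : Fin k → E := fun j => (b j : E)
  have hon : Orthonormal ℝ h := b.orthonormal.comp_linearIsometry H.subtypeₗᵢ
  have hnorm : ∀ j, ∑ a, (h j a) ^ 2 = 1 := fun j => by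
    rw [← EuclideanSpace.real_norm_sq_eq, hon.1 j, one_pow]
  have hsum : ∑ a, ∑ j, (h j a) ^ 2 = (k : ℝ) := by
    rw [Finset.sum_comm, Finset.sum_congr rfl fun j _ => hnorm j]
    simp
  have hne : Nonempty ι := by
    by_contra hemp
    rw [not_nonempty_iff] at hemp
    have : (k : ℝ) = 0 := by rw [← hsum]; simp
    rw [← hHdim] at hb
    exact absurd this (by exact_mod_cast hb.ne')
  have hcard : (0 : ℝ) < Fintype.card ι := by exact_mod_cast Fintype.card_pos
  obtain ⟨e, -, he⟩ : ∃ e ∈ (Finset.univ : Finset ι), (k : ℝ) / Fintype.card ι ≤ ∑ j, (h j e) ^ 2 := by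
    apply Finset.exists_le_of_sum_le (Finset.univ_nonempty)
    rw [Finset.sum_const, Finset.card_univ, nsmul_eq_mul, mul_div_cancel₀ _ hcard.ne', hsum]
  set u : E := ∑ j, (h j e) • h j with hu
  have huH : u ∈ H := Submodule.sum_mem _ fun j _ => Submodule.smul_mem _ _ (b j).2
  have hunorm : ‖u‖ ^ 2 = ∑ j, (h j e) ^ 2 := by
    rw [← real_inner_self_eq_norm_sq, hu, hon.inner_sum]
    refine Finset.sum_congr rfl fun j _ => ?_
    simp [sq]
  have hue : u e = ∑ j, (h j e) ^ 2 := by
    change e₂ u e = _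
    rw [hu, map_sum, Finset.sum_apply]
    refine Finset.sum_congr rfl fun j _ => ?_
    rw [map_smul, sq]
    rfl
  have hle : (u e) ^ 2 ≤ ‖u‖ ^ 2 := by
    rw [EuclideanSpace.real_norm_sq_eq]
    exact Finset.single_le_sum (f := fun a => (u a) ^ 2) (fun a _ => sq_nonneg _) (Finset.mem_univ e)
  have hule : ‖u‖ ^ 2 ≤ 1 := by
    rw [hunorm, ← hue] at hle ⊢
    nlinarith
  refine ⟨e, e₂ u, ?_, ?_, ?_, ?_, ?_⟩
  · exact huH.2.1
  · exact huH.2.2
  · intro a
    by_cases ha : deg a = n + 1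
    · -- the boundary of the cell `a`
      let v : E := e₂.symm (boundaryMap ℝ D (Pi.single a 1))
      have hv : v ∈ B := by
        refine ⟨Pi.single a 1, ?_, ?_⟩
        · intro i hi
          have : i ≠ a := by
            rintro rfl
            exact hi ha
          simp [this]
        · simp [v]
      have h3 : inner ℝ v u = 0 := (Submodule.mem_orthogonal _ _).1 huH.1 v hv
      have h4 : ∀ b, v b = (D a b : ℝ) := by
        intro b
        change boundaryMap ℝ D (Pi.single a 1) b = _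
        rw [boundaryMap_apply, Finset.sum_eq_single a]
        · simp
        · intro c _ hc
          simp [hc]
        · simp
      rw [PiLp.inner_apply] at h3
      rw [← h3]
      refine Finset.sum_congr rfl fun b _ => ?_
      rw [h4]
      change _ = u b * (D a b : ℝ)
      rw [mul_comm]
      rfl
    · refine Finset.sum_eq_zero fun b _ => ?_
      by_cases hD : D a b = 0
      · simp [hD]
      · have : (e₂ u) b = 0 := huH.2.1 b (by have := hg a b hD; omega)
        rw [this, mul_zero]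
  · have : ∑ a, (e₂ u a) ^ 2 = ‖u‖ ^ 2 := by
      rw [EuclideanSpace.real_norm_sq_eq]
      rfl
    rw [this]
    exact hule
  · change _ ≤ u e * _
    rw [← hHdim, hue]
    exact (div_le_iff₀ hcard).1 he

end Harmonic

end Pool.Agent.Lib.MP_228c3b_gt
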