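import Pool.Agent.Lib.MP_228c3b_gt.Ranks

/-!
# MP_228c3b_gt: change of coefficients, ranks over `ℚ` and over `F_p`, torsion
-/

set_option autoImplicit false

namespace Pool.Agent.Lib.MP_228c3b_gt

open Module

section Integral

variable {ι : Type} [Fintype ι] {deg : ι → ℕ} {D : Matrix ι ι ℤ}

/-- Change of coefficients. -/
def castVec (R : Type) [CommRing R] : (ι → ℤ) →ₗ[ℤ] (ι → R) where
  toFun x i := (x i : R)
  map_add' x y := by funext i; simp
  map_smul' c x := by funext i; simp

omit [Fintype ι] in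
theorem castVec_apply (R : Type) [CommRing R] (x : ι → ℤ) (i : ι) : castVec R x i = (x i : R) := rfl

theorem boundaryMap_castVec (R : Type) [CommRing R] (x : ι → ℤ) :
    boundaryMap R D (castVec R x) = castVec R (boundaryMap ℤ D x) := by
  funext j
  simp [boundaryMap_apply, castVec_apply]

theorem boundaries_eq_span (K : Type) [Field K] (n : ℕ) :
    boundaries K deg D n = Submodule.span K (castVec K '' (boundaries ℤ deg D n : Set (ι → ℤ))) := by
  classical
  apply le_antisymm
  · rintro _ ⟨z, hz, rfl⟩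
    have hz' : z = ∑ i, z i • castVec K (Pi.single i (1 : ℤ)) := by
      funext j
      rw [Finset.sum_apply, Finset.sum_eq_single j]
      · simp [castVec_apply]
      · intro b _ hb
        simp [castVec_apply, hb.symm]
      · simp
    rw [hz', map_sum]
    refine Submodule.sum_mem _ fun i _ => ?_
    rw [map_smul, boundaryMap_castVec]
    by_cases hi : deg i = n + 1
    · refine Submodule.smul_mem _ _ (Submodule.subset_span ⟨_, ⟨Pi.single i 1, ?_, rfl⟩, rfl⟩)
      intro j hj
      have : j ≠ i := by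
        rintro rfl
        exact hj hi
      simp [this]
    · rw [hz i hi, zero_smul]
      exact Submodule.zero_mem _
  · rw [Submodule.span_le]
    rintro _ ⟨_, ⟨x, hx, rfl⟩, rfl⟩
    rw [← boundaryMap_castVec]
    refine ⟨castVec K x, ?_, rfl⟩
    intro i hi
    simp [castVec_apply, hx i hi]

omit [Fintype ι] in
theorem span_castVec_basis (K : Type) [Field K] (B : Submodule ℤ (ι → ℤ)) {s : ℕ} (b : Basis (Fin s) ℤ ↥B) :
    Submodule.span K (castVec K '' (B : Set (ι → ℤ))) =
      Submodule.span K (Set.range fun j => castVec K (b j : ι → ℤ)) := by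
  apply le_antisymm
  · rw [Submodule.span_le]
    rintro _ ⟨x, hx, rfl⟩
    have h := b.sum_repr ⟨x, hx⟩
    have h' : x = ∑ j, (b.repr ⟨x, hx⟩ j) • (b j : ι → ℤ) := by
      have := congrArg (Submodule.subtype B) h
      rw [map_sum] at this
      simp only [map_smul, Submodule.subtype_apply] at this
      exact this.symm
    rw [h', map_sum]
    refine Submodule.sum_mem _ fun j _ => ?_
    rw [map_smul]
    have : (b.repr ⟨x, hx⟩ j) • castVec K (b j : ι → ℤ) =
        ((b.repr ⟨x, hx⟩ j : ℤ) : K) • castVec K (b j : ι → ℤ) := by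
      funext i
      simp [castVec_apply]
    rw [this]
    exact Submodule.smul_mem _ _ (Submodule.subset_span ⟨j, rfl⟩)
  · rw [Submodule.span_le]
    rintro _ ⟨j, rfl⟩
    exact Submodule.subset_span ⟨_, (b j).2, rfl⟩

theorem rk_succ_eq (K : Type) [Field K] (n : ℕ) {s : ℕ} (b : Basis (Fin s) ℤ ↥(boundaries ℤ deg D n)) :
    rk K deg D (n + 1) =
      finrank K ↥(Submodule.span K (Set.range fun j => castVec K (b j : ι → ℤ))) := by
  rw [← span_castVec_basis, ← boundaries_eq_span]
  rfl

theorem rk_rat_eq (n : ℕ) {s : ℕ} (b : Basis (Fin s) ℤ ↥(boundaries ℤ deg D n)) :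
    rk ℚ deg D (n + 1) = s := by
  rw [rk_succ_eq ℚ n b, finrank_span_eq_card, Fintype.card_fin]
  rw [← LinearIndependent.iff_fractionRing ℤ ℚ]
  have h1 : LinearIndependent ℤ (fun j => (b j : ι → ℤ)) :=
    b.linearIndependent.map' (Submodule.subtype _) (Submodule.ker_subtype _)
  refine h1.map' (castVec ℚ) ?_
  rw [LinearMap.ker_eq_bot]
  intro x y hxy
  funext i
  have := congrFun hxy i
  simpa [castVec_apply] using this

/-- The rank over any field is at most the rank over `ℚ`. -/
theorem rk_le_rk_rat (K : Type) [Field K] (hg : Graded deg D) (n : ℕ) : rk K deg D n ≤ rk ℚ deg D n := by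
  rcases n with _ | n
  · rw [rk_zero K hg]
    exact Nat.zero_le _
  · obtain ⟨s, b⟩ := Submodule.basisOfPid (Pi.basisFun ℤ ι) (boundaries ℤ deg D n)
    rw [rk_rat_eq n b, rk_succ_eq K n b]
    have := finrank_range_le_card (R := K) (fun j => castVec K (b j : ι → ℤ))
    rw [Fintype.card_fin] at this
    exact this

instance torsion_homology_finite (deg : ι → ℕ) (D : Matrix ι ι ℤ) (n : ℕ) :
    Finite (Submodule.torsion ℤ (Homology ℤ deg D n)) :=
  Module.finite_of_fg_torsion _ (Submodule.torsion_isTorsion (R := ℤ) (M := Homology ℤ deg D n))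

theorem exists_div (p : ℕ) [Fact p.Prime] (n : ℕ) (hg : Graded deg D) (hsq : D * D = 0) {x : ι → ℤ}
    (hx : x ∈ boundaries ℤ deg D n) (hp : castVec (ZMod p) x = 0) :
    ∃ z : ι → ℤ, z ∈ cycles ℤ deg D n ∧ (p : ℤ) • z = x := by
  have hp0 : (p : ℤ) ≠ 0 := by exact_mod_cast (Fact.out : p.Prime).ne_zero
  have hdvd : ∀ i, (p : ℤ) ∣ x i := fun i => by
    have := congrFun hp i
    rw [castVec_apply] at this
    exact (ZMod.intCast_zmod_eq_zero_iff_dvd _ _).1 this
  choose z hz using hdvd
  have hzx : (p : ℤ) • z = x := by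
    funext i
    simp [hz i]
  have hxc := boundaries_le_cycles ℤ hg hsq n hx
  refine ⟨z, ⟨fun i hi => ?_, ?_⟩, hzx⟩
  · have h1 : x i = 0 := hxc.1 i hi
    rw [hz i] at h1
    rcases mul_eq_zero.1 h1 with h | h
    · exact absurd h hp0
    · exact h
  · have h2 : boundaryMap ℤ D x = 0 := hxc.2
    rw [← hzx, map_smul] at h2
    exact (smul_eq_zero.1 h2).resolve_left hp0

/-- The universal coefficient inequality: the drop of the rank modulo `p` is controlled by the torsion. -/
theorem pow_le_torsOf (p : ℕ) [Fact p.Prime] (n : ℕ) (hg : Graded deg D) (hsq : D * D = 0) :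
    p ^ (rk ℚ deg D (n + 1) - rk (ZMod p) deg D (n + 1)) ≤ torsOf deg D n := by
  classical
  obtain ⟨s, b⟩ := Submodule.basisOfPid (Pi.basisFun ℤ ι) (boundaries ℤ deg D n)
  have hp0 : (p : ℤ) ≠ 0 := by exact_mod_cast (Fact.out : p.Prime).ne_zero
  set v : Fin s → (ι → ZMod p) := fun j => castVec (ZMod p) (b j : ι → ℤ) with hv
  set φ : (Fin s → ZMod p) →ₗ[ZMod p] (ι → ZMod p) := Fintype.linearCombination (ZMod p) v with hφ
  have hrange : finrank (ZMod p) ↥(LinearMap.range φ) = rk (ZMod p) deg D (n + 1) := by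
    rw [rk_succ_eq (ZMod p) n b, hφ, Fintype.range_linearCombination]
  have hrn := LinearMap.finrank_range_add_finrank_ker φ
  rw [hrange, Module.finrank_fin_fun] at hrn
  have hexp : rk ℚ deg D (n + 1) - rk (ZMod p) deg D (n + 1) = finrank (ZMod p) ↥(LinearMap.ker φ) := by
    rw [rk_rat_eq n b]
    omega
  have hcard : Nat.card ↥(LinearMap.ker φ) = p ^ finrank (ZMod p) ↥(LinearMap.ker φ) := by
    rw [Module.natCard_eq_pow_finrank (K := ZMod p), Nat.card_zmod]
  rw [hexp, ← hcard]
  -- lifts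
  let lift : (Fin s → ZMod p) → (ι → ℤ) := fun c => ∑ j, ((ZMod.val (c j) : ℕ) : ℤ) • (b j : ι → ℤ)
  have hlift_mem : ∀ c, lift c ∈ boundaries ℤ deg D n := fun c =>
    Submodule.sum_mem _ fun j _ => Submodule.smul_mem _ _ (b j).2
  have hlift_cast : ∀ c, castVec (ZMod p) (lift c) = φ c := by
    intro c
    rw [hφ, Fintype.linearCombination_apply]
    simp only [lift]
    rw [map_sum]
    refine Finset.sum_congr rfl fun j _ => ?_
    rw [map_smul]
    funext i
    simp [hv, castVec_apply]
  have hex : ∀ c : ↥(LinearMap.ker φ), ∃ z : ι → ℤ, z ∈ cycles ℤ deg D n ∧ (p : ℤ) • z = lift c.1 := fun c =>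
    exists_div p n hg hsq (hlift_mem c.1) (by rw [hlift_cast]; exact c.2)
  choose z hzc hz using hex
  let f : ↥(LinearMap.ker φ) → Submodule.torsion ℤ (Homology ℤ deg D n) := fun c =>
    ⟨Submodule.Quotient.mk ⟨z c, hzc c⟩, by
      rw [Submodule.mem_torsion_iff]
      refine ⟨⟨(p : ℤ), mem_nonZeroDivisors_of_ne_zero hp0⟩, ?_⟩
      change (p : ℤ) • (Submodule.Quotient.mk ⟨z c, hzc c⟩ : Homology ℤ deg D n) = 0
      rw [← Submodule.Quotient.mk_smul, Submodule.Quotient.mk_eq_zero, Submodule.mem_comap]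
      change (p : ℤ) • z c ∈ _
      rw [hz c]
      exact hlift_mem c.1⟩
  have hf : Function.Injective f := by
    intro c c' hcc
    have h1 : (Submodule.Quotient.mk (⟨z c, hzc c⟩ : ↥(cycles ℤ deg D n)) : Homology ℤ deg D n) =
        Submodule.Quotient.mk ⟨z c', hzc c'⟩ := congrArg Subtype.val hcc
    rw [Submodule.Quotient.eq, Submodule.mem_comap] at h1
    have h2 : z c - z c' ∈ boundaries ℤ deg D n := h1
    set e := b.repr ⟨z c - z c', h2⟩ with he
    have h3 : z c - z c' = ∑ j, e j • (b j : ι → ℤ) := by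
      have := congrArg (Submodule.subtype _) (b.sum_repr ⟨z c - z c', h2⟩)
      rw [map_sum] at this
      simp only [map_smul, Submodule.subtype_apply] at this
      exact this.symm
    have h4 : lift c.1 - lift c'.1 = (p : ℤ) • ∑ j, e j • (b j : ι → ℤ) := by
      rw [← hz c, ← hz c', ← smul_sub, h3]
    have h5 : ∑ j, (((ZMod.val (c.1 j) : ℕ) : ℤ) - ((ZMod.val (c'.1 j) : ℕ) : ℤ) - p * e j) •
        (b j : ι → ℤ) = 0 := by
      simp only [sub_smul, Finset.sum_sub_distrib, mul_smul, ← Finset.smul_sum]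
      rw [← h4]
      exact sub_self _
    have hli : LinearIndependent ℤ (fun j => (b j : ι → ℤ)) :=
      b.linearIndependent.map' (Submodule.subtype _) (Submodule.ker_subtype _)
    have h6 := Fintype.linearIndependent_iff.1 hli _ h5
    apply Subtype.ext
    funext j
    have h7 := congrArg (Int.cast : ℤ → ZMod p) (h6 j)
    simp at h7
    exact sub_eq_zero.1 h7
  exact Nat.card_le_card_of_injective f hf

theorem finrank_chains (K : Type) [Field K] (n : ℕ) :
    finrank K ↥(chains K deg n) = Nat.card {i : ι // deg i = n} := by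
  classical
  let e : ↥(chains K deg n) ≃ₗ[K] ({i : ι // deg i = n} → K) :=
    { toFun := fun x i => x.1 i.1
      map_add' := fun x y => rfl
      map_smul' := fun c x => rfl
      invFun := fun y => ⟨fun i => if h : deg i = n then y ⟨i, h⟩ else 0, fun i hi => by simp [hi]⟩
      left_inv := fun x => by
        apply Subtype.ext
        funext i
        by_cases h : deg i = n
        · simp [h]
        · simp [h, x.2 i h]
      right_inv := fun y => by
        funext i
        simp [i.2] }
  rw [e.finrank_eq, Module.finrank_fintype_fun_eq_card, Nat.card_eq_fintype_card]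

theorem betti_rat_le (K : Type) [Field K] (hg : Graded deg D) (hsq : D * D = 0) (n : ℕ) :
    bettiOf ℚ deg D n ≤ bettiOf K deg D n := by
  have h1 := betti_add_rk K hg hsq n
  have h2 := betti_add_rk ℚ hg hsq n
  rw [finrank_chains] at h1 h2
  have h3 := rk_le_rk_rat (D := D) K hg n
  have h4 := rk_le_rk_rat (D := D) K hg (n + 1)
  omega

theorem rk_sub_le (p : ℕ) [Fact p.Prime] (n : ℕ) (hg : Graded deg D) (hsq : D * D = 0) :
    ((rk ℚ deg D (n + 1) : ℝ) - rk (ZMod p) deg D (n + 1)) * Real.log p ≤ Real.log (torsOf deg D n) := by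
  have h1 := pow_le_torsOf (deg := deg) (D := D) p n hg hsq
  have h2 := rk_le_rk_rat (D := D) (ZMod p) hg (n + 1)
  have hp : 0 < p := (Fact.out : p.Prime).pos
  have h4 : ((p : ℝ) ^ (rk ℚ deg D (n + 1) - rk (ZMod p) deg D (n + 1))) ≤ (torsOf deg D n : ℝ) := by
    exact_mod_cast h1
  have hp' : (0 : ℝ) < p := by exact_mod_cast hp
  have h5 := Real.log_le_log (by positivity) h4
  rw [Real.log_pow, Nat.cast_sub h2] at h5
  exact h5

/-- The total Betti number modulo `p` exceeds the rational one by at most the total torsion. -/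
theorem sum_betti_le (p : ℕ) [Fact p.Prime] (hg : Graded deg D) (hsq : D * D = 0) {N : ℕ}
    (hN : ∀ i, deg i < N) :
    ((∑ n ∈ Finset.range N, bettiOf (ZMod p) deg D n : ℕ) : ℝ) * Real.log p ≤
      ((∑ n ∈ Finset.range N, bettiOf ℚ deg D n : ℕ) : ℝ) * Real.log p +
        2 * ∑ n ∈ Finset.range N, Real.log (torsOf deg D n) := by
  have h1 := sum_betti (ZMod p) hg hsq hN
  have h2 := sum_betti ℚ hg hsq hN
  rw [← sum_rk (ZMod p) hg hN] at h1
  rw [← sum_rk ℚ hg hN] at h2
  have shift : ∀ (K : Type) [Field K], ∑ n ∈ Finset.range N, rk K deg D (n + 1) =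
      ∑ n ∈ Finset.range N, rk K deg D n := by
    intro K _
    have h3 := Finset.sum_range_succ (fun n => rk K deg D n) N
    have h4 := Finset.sum_range_succ' (fun n => rk K deg D n) N
    rw [rk_zero K hg] at h4
    rw [rk_eq_zero_of_large K (fun i => (hN i).ne)] at h3
    omega
  rw [← shift (ZMod p)] at h1
  rw [← shift ℚ] at h2
  have h3 : ∑ n ∈ Finset.range N, ((rk ℚ deg D (n + 1) : ℝ) - rk (ZMod p) deg D (n + 1)) * Real.log p ≤
      ∑ n ∈ Finset.range N, Real.log (torsOf deg D n) :=
    Finset.sum_le_sum fun n _ => rk_sub_le p n hg hsq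
  rw [← Finset.sum_mul, Finset.sum_sub_distrib] at h3
  have h1' : ((∑ n ∈ Finset.range N, bettiOf (ZMod p) deg D n : ℕ) : ℝ) +
      2 * ∑ n ∈ Finset.range N, (rk (ZMod p) deg D (n + 1) : ℝ) = Fintype.card ι := by
    exact_mod_cast h1
  have h2' : ((∑ n ∈ Finset.range N, bettiOf ℚ deg D n : ℕ) : ℝ) +
      2 * ∑ n ∈ Finset.range N, (rk ℚ deg D (n + 1) : ℝ) = Fintype.card ι := by
    exact_mod_cast h2
  have h4 : ((∑ n ∈ Finset.range N, bettiOf (ZMod p) deg D n : ℕ) : ℝ) =
      ((∑ n ∈ Finset.range N, bettiOf ℚ deg D n : ℕ) : ℝ) +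
      2 * (∑ n ∈ Finset.range N, (rk ℚ deg D (n + 1) : ℝ) -
        ∑ n ∈ Finset.range N, (rk (ZMod p) deg D (n + 1) : ℝ)) := by linarith
  rw [h4]
  linarith

end Integral

end Pool.Agent.Lib.MP_228c3b_gt
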