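import Pool.Agent.Lib.MP_228c3b_gt.Cover
import Pool.Agent.Lib.MP_228c3b_gt.Harmonic

/-!
# MP_228c3b_gt: if the `n`-th `L²`-Betti number vanishes, the rational homology growth in degree `n` vanishes
-/

set_option autoImplicit false

namespace Pool.Agent.Lib.MP_228c3b_gt

open Module Filter Topology
open scoped Classical

section Pull

variable {G : Type} [Group G] (N : Subgroup G) [N.Normal] [N.FiniteIndex]

/-- The quotient by a subgroup of finite index is finite. -/
noncomputable local instance instFintypeQ' : Fintype (G ⧸ N) := Fintype.ofFinite _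

theorem sum_rep_right (f : MonoidAlgebra ℤ G) (u : G ⧸ N → ℝ) (s : G ⧸ N) :
    ∑ r, u r * (rep N f r s : ℝ) = f.coeff.sum (fun h c => (c : ℝ) * u (s * (h : G ⧸ N)⁻¹)) := by
  have h1 : ∀ r, u r * (rep N f r s : ℝ) =
      ∑ h ∈ f.coeff.support, u r * (if r * (h : G ⧸ N) = s then (f.coeff h : ℝ) else 0) := by
    intro r
    rw [rep_apply, Finsupp.sum, ← Finset.mul_sum]
    push_cast
    rfl
  rw [Finset.sum_congr rfl fun r _ => h1 r, Finset.sum_comm, Finsupp.sum]
  refine Finset.sum_congr rfl fun h _ => ?_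
  rw [Finset.sum_eq_single (s * (h : G ⧸ N)⁻¹)]
  · simp [mul_comm]
  · intro r _ hr
    have : r * (h : G ⧸ N) ≠ s := by
      rintro rfl
      apply hr
      simp
    simp [this]
  · simp

theorem sum_rep_left (f : MonoidAlgebra ℤ G) (u : G ⧸ N → ℝ) (s : G ⧸ N) :
    ∑ r, (rep N f s r : ℝ) * u r = f.coeff.sum (fun h c => (c : ℝ) * u (s * (h : G ⧸ N))) := by
  have h1 : ∀ r, (rep N f s r : ℝ) * u r =
      ∑ h ∈ f.coeff.support, (if s * (h : G ⧸ N) = r then (f.coeff h : ℝ) else 0) * u r := by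
    intro r
    rw [rep_apply, Finsupp.sum, ← Finset.sum_mul]
    push_cast
    rfl
  rw [Finset.sum_congr rfl fun r _ => h1 r, Finset.sum_comm, Finsupp.sum]
  refine Finset.sum_congr rfl fun h _ => ?_
  rw [Finset.sum_eq_single (s * (h : G ⧸ N))]
  · simp
  · intro r _ hr
    simp [hr.symm]
  · simp

/-- Harmonic chains on `G` coming from the finite cover. -/
theorem exists_pull (C : CellComplex G) (n : ℕ) (hb : 0 < C.betti ℝ N n) :
    ∃ x : C.Cell → G → ℝ,
      (∀ τ, C.deg τ ≠ n → x τ = 0) ∧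
      (∀ τ g, ∑ σ, (C.bd σ τ).coeff.sum (fun h c => (c : ℝ) * x σ (g * h⁻¹)) = 0) ∧
      (∀ σ g, ∑ τ, (C.bd σ τ).coeff.sum (fun h c => (c : ℝ) * x τ (g * h)) = 0) ∧
      (∀ F : Finset G, Set.InjOn (fun g : G => (g : G ⧸ N)) F → ∑ τ, ∑ g ∈ F, (x τ g) ^ 2 ≤ 1) ∧
      ∃ σ, (C.betti ℝ N n : ℝ) ≤ x σ 1 * (Fintype.card C.Cell * N.index) := by
  obtain ⟨⟨σ, q⟩, u, hu1, hu2, hu3, hu4, hu5⟩ :=
    exists_harmonic (coverMatrix_graded N C) (coverMatrix_sq N C) n hb
  refine ⟨fun τ g => u (τ, q * (g : G ⧸ N)), ?_, ?_, ?_, ?_, σ, ?_⟩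
  · intro τ hτ
    funext g
    exact hu1 _ hτ
  · intro τ g
    have h1 := congrFun hu2 (τ, q * (g : G ⧸ N))
    rw [boundaryMap_apply, Fintype.sum_prod_type] at h1
    rw [Pi.zero_apply] at h1
    rw [← h1]
    refine Finset.sum_congr rfl fun σ' _ => ?_
    simp only [coverMatrix_eq]
    rw [sum_rep_right N (C.bd σ' τ) (fun r => u (σ', r)) (q * (g : G ⧸ N))]
    refine Finsupp.sum_congr fun h _ => ?_
    simp [mul_assoc]
  · intro σ' g
    have h1 := hu3 (σ', q * (g : G ⧸ N))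
    rw [Fintype.sum_prod_type] at h1
    rw [← h1]
    refine Finset.sum_congr rfl fun τ _ => ?_
    simp only [coverMatrix_eq]
    rw [sum_rep_left N (C.bd σ' τ) (fun r => u (τ, r)) (q * (g : G ⧸ N))]
    refine Finsupp.sum_congr fun h _ => ?_
    simp [mul_assoc]
  · intro F hF
    rw [Fintype.sum_prod_type] at hu4
    refine le_trans (Finset.sum_le_sum fun τ _ => ?_) hu4
    have h1 : ∑ g ∈ F, (u (τ, q * (g : G ⧸ N))) ^ 2 =
        ∑ r ∈ F.image (fun g : G => q * (g : G ⧸ N)), (u (τ, r)) ^ 2 := by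
      rw [Finset.sum_image]
      intro g hg g' hg' hgg
      exact hF hg hg' (mul_left_cancel hgg)
    rw [h1]
    exact Finset.sum_le_sum_of_subset_of_nonneg (Finset.subset_univ _) fun _ _ _ => sq_nonneg _
  · have h1 : (Fintype.card (C.Cell × (G ⧸ N)) : ℝ) = Fintype.card C.Cell * N.index := by
      rw [Fintype.card_prod, Subgroup.index, Nat.card_eq_fintype_card]
      push_cast
      rfl
    rw [h1] at hu5
    have h2 : u (σ, q * ((1 : G) : G ⧸ N)) = u (σ, q) := by simp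
    change (C.betti ℝ N n : ℝ) ≤ u (σ, q * ((1 : G) : G ⧸ N)) * _
    rw [h2]
    exact hu5

end Pull

section Limit

variable {G : Type} [Group G]

/-- A finite set injects in the quotients far along the chain. -/
theorem eventually_injOn (N : NormalChain G) (F : Finset G) :
    ∀ᶠ i in atTop, Set.InjOn (fun g : G => (g : G ⧸ (N.grp i))) F := by
  have h1 : ∀ a ∈ F, ∀ᶠ i in atTop, ∀ b ∈ F, (a : G ⧸ (N.grp i)) = (b : G ⧸ (N.grp i)) → a = b := by
    intro a _
    rw [Filter.eventually_all_finset]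
    intro b _
    by_cases hab : a = b
    · exact Filter.Eventually.of_forall fun _ _ => hab
    · have h2 : a⁻¹ * b ∉ ⨅ i, N.grp i := by
        rw [N.trivial, Subgroup.mem_bot, inv_mul_eq_one]
        exact hab
      rw [Subgroup.mem_iInf, not_forall] at h2
      obtain ⟨i₀, hi₀⟩ := h2
      filter_upwards [eventually_ge_atTop i₀] with i hi heq
      exact absurd (N.antitone hi (QuotientGroup.eq.1 heq)) hi₀
  have h2 := (Filter.eventually_all_finset F).2 h1
  filter_upwards [h2] with i hi a ha b hb hab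
  exact hi a ha b hb hab

/-- If there is no nonzero harmonic `L²`-chain of degree `n` then the rational homology growth in degree `n`
vanishes. -/
theorem kazhdan (C : CellComplex G) (N : NormalChain G) (n : ℕ) (h : C.L2BettiVanishes n) {ε : ℝ}
    (hε : 0 < ε) : ∀ᶠ i in atTop, (C.betti ℝ (N.grp i) n : ℝ) ≤ ε * (N.grp i).index := by
  by_contra hcon
  rw [Filter.not_eventually] at hcon
  set S : Set ℕ := {i | ¬ (C.betti ℝ (N.grp i) n : ℝ) ≤ ε * (N.grp i).index} with hS
  have hne : (atTop ⊓ 𝓟 S).NeBot := Filter.frequently_mem_iff_neBot.1 hcon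
  set U : Ultrafilter ℕ := Ultrafilter.of (atTop ⊓ 𝓟 S) with hUdef
  have hU : (U : Filter ℕ) ≤ atTop ⊓ 𝓟 S := Ultrafilter.of_le _
  have hUtop : (U : Filter ℕ) ≤ atTop := hU.trans inf_le_left
  have hUS : ∀ᶠ i in (U : Filter ℕ), i ∈ S := (hU.trans inf_le_right) (mem_principal_self S)
  have hex : ∀ i, ∃ x : C.Cell → G → ℝ, i ∈ S →
      ((∀ τ, C.deg τ ≠ n → x τ = 0) ∧
      (∀ τ g, ∑ σ, (C.bd σ τ).coeff.sum (fun h c => (c : ℝ) * x σ (g * h⁻¹)) = 0) ∧
      (∀ σ g, ∑ τ, (C.bd σ τ).coeff.sum (fun h c => (c : ℝ) * x τ (g * h)) = 0) ∧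
      (∀ F : Finset G, Set.InjOn (fun g : G => (g : G ⧸ (N.grp i))) F → ∑ τ, ∑ g ∈ F, (x τ g) ^ 2 ≤ 1) ∧
      ∃ σ, (C.betti ℝ (N.grp i) n : ℝ) ≤ x σ 1 * (Fintype.card C.Cell * (N.grp i).index)) := by
    intro i
    by_cases hi : i ∈ S
    · have hb : 0 < C.betti ℝ (N.grp i) n := by
        have h1 : ε * (N.grp i).index < (C.betti ℝ (N.grp i) n : ℝ) := not_le.1 hi
        have h2 : (0 : ℝ) ≤ ε * (N.grp i).index := by positivity
        exact_mod_cast h2.trans_lt h1
      obtain ⟨x, hx⟩ := exists_pull (N.grp i) C n hb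
      exact ⟨x, fun _ => hx⟩
    · exact ⟨0, fun h' => absurd h' hi⟩
  choose x hx using hex
  have hbd : ∀ i ∈ S, ∀ τ g, x i τ g ∈ Set.Icc (-1 : ℝ) 1 := by
    intro i hi τ g
    have h1 := (hx i hi).2.2.2.1 {g} (by simp)
    have h2 : (x i τ g) ^ 2 ≤ ∑ τ, ∑ g ∈ ({g} : Finset G), (x i τ g) ^ 2 := by
      simp only [Finset.sum_singleton]
      exact Finset.single_le_sum (f := fun τ => (x i τ g) ^ 2) (fun a _ => sq_nonneg _) (Finset.mem_univ τ)
    have h3 : (x i τ g) ^ 2 ≤ 1 := h2.trans h1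
    rw [sq_le_one_iff_abs_le_one, abs_le] at h3
    exact h3
  have hlim : ∀ τ g, ∃ y : ℝ, Tendsto (fun i => x i τ g) (U : Filter ℕ) (𝓝 y) := by
    intro τ g
    obtain ⟨y, -, hy⟩ := isCompact_Icc.ultrafilter_le_nhds (U.map (fun i => x i τ g))
      (by
        rw [Filter.le_principal_iff]
        change ∀ᶠ i in (U : Filter ℕ), x i τ g ∈ Set.Icc (-1 : ℝ) 1
        filter_upwards [hUS] with i hi using hbd i hi τ g)
    exact ⟨y, hy⟩
  choose y hy using hlim
  have hsq : ∀ τ (F : Finset G), ∑ g ∈ F, (y τ g) ^ 2 ≤ 1 := by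
    intro τ F
    have h1 : Tendsto (fun i => ∑ g ∈ F, (x i τ g) ^ 2) (U : Filter ℕ) (𝓝 (∑ g ∈ F, (y τ g) ^ 2)) :=
      tendsto_finsetSum _ fun g _ => (hy τ g).pow 2
    refine le_of_tendsto h1 ?_
    filter_upwards [hUS, hUtop (eventually_injOn N F)] with i hi hF
    refine le_trans ?_ ((hx i hi).2.2.2.1 F hF)
    exact Finset.single_le_sum (f := fun τ => ∑ g ∈ F, (x i τ g) ^ 2)
      (fun a _ => Finset.sum_nonneg fun _ _ => sq_nonneg _) (Finset.mem_univ τ)
  have hX := h (fun σ g => (y σ g : ℂ)) ?_ ?_ ?_ ?_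
  · -- the limit does not vanish
    have h0 : ∀ σ, y σ 1 = 0 := fun σ => by
      have : ((y σ 1 : ℝ) : ℂ) = 0 := congrFun (congrFun hX σ) 1
      exact Complex.ofReal_eq_zero.1 this
    have h1 : Tendsto (fun i => (∑ σ, |x i σ 1|) * (Fintype.card C.Cell : ℝ)) (U : Filter ℕ)
        (𝓝 ((∑ σ, |y σ 1|) * (Fintype.card C.Cell : ℝ))) :=
      (tendsto_finsetSum _ fun σ _ => (hy σ 1).abs).mul_const _
    have h2 : ε ≤ (∑ σ, |y σ 1|) * (Fintype.card C.Cell : ℝ) := by
      refine ge_of_tendsto h1 ?_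
      filter_upwards [hUS] with i hi
      obtain ⟨σ, hσ⟩ := (hx i hi).2.2.2.2
      have h3 : ε * (N.grp i).index < (C.betti ℝ (N.grp i) n : ℝ) := not_le.1 hi
      have h4 : (0 : ℝ) < (N.grp i).index := by
        exact_mod_cast Nat.pos_of_ne_zero (N.finiteIndex i).index_ne_zero
      have h5 : ε < x i σ 1 * Fintype.card C.Cell := by
        have : ε * (N.grp i).index < (x i σ 1 * Fintype.card C.Cell) * (N.grp i).index := by
          rw [mul_assoc]
          exact h3.trans_le hσ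
        exact lt_of_mul_lt_mul_right this h4.le
      have h6 : x i σ 1 ≤ ∑ σ, |x i σ 1| :=
        (le_abs_self _).trans (Finset.single_le_sum (f := fun σ => |x i σ 1|) (fun a _ => abs_nonneg _)
          (Finset.mem_univ σ))
      exact h5.le.trans (mul_le_mul_of_nonneg_right h6 (Nat.cast_nonneg _))
    have h3 : ∑ σ, |y σ 1| = 0 := Finset.sum_eq_zero fun σ _ => by rw [h0 σ, abs_zero]
    rw [h3, zero_mul] at h2
    linarith
  · intro σ
    have h2 : (0 : ℝ) < (2 : ENNReal).toReal := by simp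
    refine (memℓp_gen_iff h2).2 ?_
    refine summable_of_sum_le (c := 1) (fun g => by positivity) fun F => ?_
    have : ∑ g ∈ F, ‖((y σ g : ℝ) : ℂ)‖ ^ (2 : ENNReal).toReal = ∑ g ∈ F, (y σ g) ^ 2 := by
      refine Finset.sum_congr rfl fun g _ => ?_
      rw [ENNReal.toReal_ofNat, Real.rpow_ofNat, Complex.norm_real, Real.norm_eq_abs, sq_abs]
    rw [this]
    exact hsq σ F
  · intro σ hσ
    funext g
    have h1 : y σ g = 0 := by
      refine tendsto_nhds_unique (hy σ g) (tendsto_const_nhds.congr' ?_)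
      filter_upwards [hUS] with i hi
      rw [(hx i hi).1 σ hσ]
      rfl
    simp [h1]
  · intro τ g
    have h1 : ∑ σ, (C.bd σ τ).coeff.sum (fun h c => (c : ℝ) * y σ (g * h⁻¹)) = 0 := by
      have h2 : Tendsto (fun i => ∑ σ, (C.bd σ τ).coeff.sum (fun h c => (c : ℝ) * x i σ (g * h⁻¹)))
          (U : Filter ℕ) (𝓝 (∑ σ, (C.bd σ τ).coeff.sum (fun h c => (c : ℝ) * y σ (g * h⁻¹)))) :=
        tendsto_finsetSum _ fun σ _ => tendsto_finsetSum _ fun h _ => (hy σ (g * h⁻¹)).const_mul _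
      refine tendsto_nhds_unique h2 (tendsto_const_nhds.congr' ?_)
      filter_upwards [hUS] with i hi
      exact ((hx i hi).2.1 τ g).symm
    have h2 := congrArg (fun r : ℝ => (r : ℂ)) h1
    simpa [Finsupp.sum] using h2
  · intro σ g
    have h1 : ∑ τ, (C.bd σ τ).coeff.sum (fun h c => (c : ℝ) * y τ (g * h)) = 0 := by
      have h2 : Tendsto (fun i => ∑ τ, (C.bd σ τ).coeff.sum (fun h c => (c : ℝ) * x i τ (g * h)))
          (U : Filter ℕ) (𝓝 (∑ τ, (C.bd σ τ).coeff.sum (fun h c => (c : ℝ) * y τ (g * h)))) :=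
        tendsto_finsetSum _ fun τ _ => tendsto_finsetSum _ fun h _ => (hy τ (g * h)).const_mul _
      refine tendsto_nhds_unique h2 (tendsto_const_nhds.congr' ?_)
      filter_upwards [hUS] with i hi
      exact ((hx i hi).2.2.1 σ g).symm
    have h2 := congrArg (fun r : ℝ => (r : ℂ)) h1
    simpa [Finsupp.sum] using h2

end Limit

end Pool.Agent.Lib.MP_228c3b_gt
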