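import Pool.Agent.Lib.MP_228c3b_gt.Integral

/-!
# MP_228c3b_gt: the Künneth formula for total Betti numbers
-/

set_option autoImplicit false

namespace Pool.Agent.Lib.MP_228c3b_gt

open Module

section Abstract

variable {K V W : Type} [Field K] [AddCommGroup V] [Module K V] [AddCommGroup W] [Module K W]
  [FiniteDimensional K V] [FiniteDimensional K W]

/-- The map `X ↦ A ∘ X + X ∘ B`. -/
def sylv (A : V →ₗ[K] V) (B : W →ₗ[K] W) : (W →ₗ[K] V) →ₗ[K] (W →ₗ[K] V) where
  toFun X := A ∘ₗ X + X ∘ₗ B
  map_add' X Y := by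
    ext w
    simp only [LinearMap.add_apply, LinearMap.comp_apply, map_add]
    abel
  map_smul' c X := by
    ext w
    simp only [LinearMap.add_apply, LinearMap.comp_apply, LinearMap.smul_apply, map_smul, RingHom.id_apply,
      smul_add]

/-- The dimension of the kernel of `X ↦ A X + X B` for square zero `A` and `B`. -/
theorem finrank_ker_sylv (A : V →ₗ[K] V) (B : W →ₗ[K] W) (hA : A ∘ₗ A = 0) (hB : B ∘ₗ B = 0) :
    (finrank K ↥(LinearMap.ker (sylv A B)) : ℤ) =
      ((finrank K V : ℤ) - finrank K ↥(LinearMap.range A)) * ((finrank K W : ℤ) - finrank K ↥(LinearMap.range B)) +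
        finrank K ↥(LinearMap.range A) * finrank K ↥(LinearMap.range B) := by
  -- the map `X ↦ A X` on the kernel
  let L : ↥(LinearMap.ker (sylv A B)) →ₗ[K] (W →ₗ[K] V) :=
    (LinearMap.compRight K A : (W →ₗ[K] V) →ₗ[K] (W →ₗ[K] V)) ∘ₗ (LinearMap.ker (sylv A B)).subtype
  have hLapp : ∀ X, L X = A ∘ₗ X.1 := fun X => rfl
  -- the range
  let J2 : (↥(LinearMap.range B) →ₗ[K] ↥(LinearMap.range A)) →ₗ[K] (W →ₗ[K] V) :=
    { toFun := fun Y => (LinearMap.range A).subtype ∘ₗ Y ∘ₗ B.rangeRestrict
      map_add' := fun Y Z => by ext w; simp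
      map_smul' := fun c Y => by ext w; simp }
  have hJ2app : ∀ Y w, J2 Y w = (Y (B.rangeRestrict w) : V) := fun Y w => rfl
  have hJ2 : Function.Injective J2 := by
    intro Y Z hYZ
    ext w
    obtain ⟨w, hw⟩ := w
    obtain ⟨u, rfl⟩ := hw
    have := congrArg (fun f : W →ₗ[K] V => f u) hYZ
    exact this
  have hrange : LinearMap.range L = LinearMap.range J2 := by
    apply le_antisymm
    · rintro _ ⟨X, rfl⟩
      have hX : A ∘ₗ X.1 + X.1 ∘ₗ B = 0 := X.2
      have hX' : ∀ w, A (X.1 w) = - X.1 (B w) := fun w => by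
        have := congrArg (fun f : W →ₗ[K] V => f w) hX
        exact eq_neg_of_add_eq_zero_left this
      refine ⟨LinearMap.codRestrict (LinearMap.range A) (-(X.1 ∘ₗ (LinearMap.range B).subtype)) ?_, ?_⟩
      · rintro ⟨w, u, rfl⟩
        refine ⟨X.1 u, ?_⟩
        rw [hX']
        rfl
      · ext w
        rw [hJ2app, hLapp, LinearMap.comp_apply, hX']
        rfl
    · rintro _ ⟨Y, rfl⟩
      obtain ⟨g, hg⟩ := LinearMap.exists_extend Y
      obtain ⟨s, hs⟩ := A.rangeRestrict.exists_rightInverse_of_surjective A.range_rangeRestrict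
      have hAs : ∀ v, A (s v) = (v : V) := fun v => by
        have := congrArg (fun f : ↥(LinearMap.range A) →ₗ[K] ↥(LinearMap.range A) => (f v : V)) hs
        exact this
      have hgY : ∀ w, g (B w) = Y (B.rangeRestrict w) := fun w => by
        rw [← hg]
        rfl
      have hAA : ∀ v, A (A v) = 0 := fun v => congrArg (fun f : V →ₗ[K] V => f v) hA
      have hBB : ∀ w, B (B w) = 0 := fun w => congrArg (fun f : W →ₗ[K] W => f w) hB
      refine ⟨⟨(s ∘ₗ g) ∘ₗ B - A ∘ₗ (s ∘ₗ g), ?_⟩, ?_⟩
      · change A ∘ₗ ((s ∘ₗ g) ∘ₗ B - A ∘ₗ (s ∘ₗ g)) + ((s ∘ₗ g) ∘ₗ B - A ∘ₗ (s ∘ₗ g)) ∘ₗ B = 0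
        ext w
        simp only [LinearMap.add_apply, LinearMap.comp_apply, LinearMap.sub_apply, map_sub, hAA, hBB,
          LinearMap.zero_apply, map_zero]
        abel
      · ext w
        rw [hLapp, hJ2app, ← hgY]
        have hAr : ∀ v : ↥(LinearMap.range A), A (v : V) = 0 := by
          rintro ⟨_, u, rfl⟩
          exact hAA u
        simp only [LinearMap.comp_apply, LinearMap.sub_apply, map_sub, hAs, hAr, sub_zero]
  -- the kernel
  let J1 : ((W ⧸ LinearMap.range B) →ₗ[K] ↥(LinearMap.ker A)) →ₗ[K] ↥(LinearMap.ker (sylv A B)) :=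
    { toFun := fun Y => ⟨(LinearMap.ker A).subtype ∘ₗ Y ∘ₗ (LinearMap.range B).mkQ, by
        change A ∘ₗ _ + _ ∘ₗ B = 0
        ext w
        have h1 : (Submodule.Quotient.mk (B w) : W ⧸ LinearMap.range B) = 0 := by
          rw [Submodule.Quotient.mk_eq_zero]
          exact ⟨w, rfl⟩
        simp [h1]⟩
      map_add' := fun Y Z => by
        apply Subtype.ext
        ext w
        simp
      map_smul' := fun c Y => by
        apply Subtype.ext
        ext w
        simp }
  have hJ1app : ∀ Y w, (J1 Y).1 w = (Y (Submodule.Quotient.mk w) : V) := fun Y w => rfl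
  have hJ1 : Function.Injective J1 := by
    intro Y Z hYZ
    ext w
    have := congrArg (fun f : ↥(LinearMap.ker (sylv A B)) => f.1 w) hYZ
    exact this
  have hker : LinearMap.ker L = LinearMap.range J1 := by
    apply le_antisymm
    · intro X hX
      have hX1 : A ∘ₗ X.1 = 0 := hX
      have hX2 : A ∘ₗ X.1 + X.1 ∘ₗ B = 0 := X.2
      rw [hX1, zero_add] at hX2
      refine ⟨(LinearMap.range B).liftQ (LinearMap.codRestrict (LinearMap.ker A) X.1
        (fun w => congrArg (fun f : W →ₗ[K] V => f w) hX1)) ?_, ?_⟩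
      · rintro _ ⟨w, rfl⟩
        rw [LinearMap.mem_ker]
        apply Subtype.ext
        exact congrArg (fun f : W →ₗ[K] V => f w) hX2
      · apply Subtype.ext
        ext w
        rw [hJ1app]
        rfl
    · rintro _ ⟨Y, rfl⟩
      rw [LinearMap.mem_ker, hLapp]
      ext w
      rw [LinearMap.comp_apply, hJ1app]
      exact (Y (Submodule.Quotient.mk w)).2
  have h1 := LinearMap.finrank_range_add_finrank_ker L
  rw [hrange, hker, LinearMap.finrank_range_of_inj hJ2, LinearMap.finrank_range_of_inj hJ1,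
    Module.finrank_linearMap, Module.finrank_linearMap] at h1
  have h2 := LinearMap.finrank_range_add_finrank_ker A
  have h3 := Submodule.finrank_quotient_add_finrank (LinearMap.range B)
  have h4 : (finrank K V : ℤ) - finrank K ↥(LinearMap.range A) = finrank K ↥(LinearMap.ker A) := by
    rw [← h2]
    push_cast
    ring
  have h5 : (finrank K W : ℤ) - finrank K ↥(LinearMap.range B) = finrank K (W ⧸ LinearMap.range B) := by
    rw [← h3]
    push_cast
    ring
  rw [h4, h5, ← h1]
  push_cast
  ring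

end Abstract

section Product

variable {ι κ : Type} [Fintype ι] [Fintype κ] [DecidableEq ι] [DecidableEq κ]

/-- The incidence matrix of a product of based complexes. -/
def prodMatrix (deg : ι → ℕ) (D : Matrix ι ι ℤ) (D' : Matrix κ κ ℤ) : Matrix (ι × κ) (ι × κ) ℤ :=
  fun a b => (if a.2 = b.2 then D a.1 b.1 else 0) + (if a.1 = b.1 then (-1) ^ deg a.1 * D' a.2 b.2 else 0)

omit [DecidableEq ι] in
theorem map_cast_sq (K : Type) [Field K] {D : Matrix ι ι ℤ} (hsq : D * D = 0) :
    (D.map (Int.cast : ℤ → K)) * (D.map (Int.cast : ℤ → K)) = 0 := by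
  have := Matrix.map_mul (L := D) (M := D) (f := Int.castRingHom K)
  rw [hsq] at this
  ext i j
  have := congrFun (congrFun this i) j
  simpa using this.symm

/-- The matrix `ε Dᵀ` has square zero. -/
theorem eps_sq (K : Type) [Field K] {deg : ι → ℕ} {D : Matrix ι ι ℤ} (hg : Graded deg D) (hsq : D * D = 0) :
    (Matrix.diagonal (fun i => (-1 : K) ^ deg i) * (D.map (Int.cast : ℤ → K)).transpose) *
      (Matrix.diagonal (fun i => (-1 : K) ^ deg i) * (D.map (Int.cast : ℤ → K)).transpose) = 0 := by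
  have h1 : (D.map (Int.cast : ℤ → K)).transpose * Matrix.diagonal (fun i => (-1 : K) ^ deg i) =
      - (Matrix.diagonal (fun i => (-1 : K) ^ deg i) * (D.map (Int.cast : ℤ → K)).transpose) := by
    ext i j
    rw [Matrix.mul_diagonal, Matrix.neg_apply, Matrix.diagonal_mul]
    simp only [Matrix.transpose_apply, Matrix.map_apply]
    by_cases h : D j i = 0
    · simp [h]
    · rw [hg j i h, pow_succ]
      ring
  have h2 : (D.map (Int.cast : ℤ → K)).transpose * (D.map (Int.cast : ℤ → K)).transpose = 0 := by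
    rw [← Matrix.transpose_mul, map_cast_sq K hsq, Matrix.transpose_zero]
  rw [Matrix.mul_assoc, ← Matrix.mul_assoc (D.map (Int.cast : ℤ → K)).transpose, h1, Matrix.neg_mul,
    Matrix.mul_assoc, h2, Matrix.mul_zero, neg_zero, Matrix.mul_zero]

/-- The Künneth formula for the total homology: `card - 2 rank` is multiplicative. -/
theorem card_sub_rank_prod (K : Type) [Field K] {deg : ι → ℕ} {D : Matrix ι ι ℤ} {D' : Matrix κ κ ℤ}
    (hg : Graded deg D) (hsq : D * D = 0) (hsq' : D' * D' = 0) :
    ((Fintype.card (ι × κ) : ℕ) : ℤ) - 2 * ((prodMatrix deg D D').map (Int.cast : ℤ → K)).rank =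
      ((Fintype.card ι : ℤ) - 2 * (D.map (Int.cast : ℤ → K)).rank) *
        ((Fintype.card κ : ℤ) - 2 * (D'.map (Int.cast : ℤ → K)).rank) := by
  set M : Matrix ι ι K := Matrix.diagonal (fun i => (-1 : K) ^ deg i) * (D.map (Int.cast : ℤ → K)).transpose
    with hM
  set B : Matrix κ κ K := D'.map (Int.cast : ℤ → K) with hB
  have hMM : M * M = 0 := eps_sq K hg hsq
  have hBB : B * B = 0 := map_cast_sq K hsq'
  have hk := finrank_ker_sylv (Matrix.toLin' M) (Matrix.toLin' B)
    (by rw [← Matrix.toLin'_mul, hMM, map_zero]) (by rw [← Matrix.toLin'_mul, hBB, map_zero])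
  have hMrank : finrank K ↥(LinearMap.range (Matrix.toLin' M)) = (D.map (Int.cast : ℤ → K)).rank := by
    rw [Matrix.toLin'_apply', ← Matrix.rank, hM, Matrix.rank_mul_eq_right_of_isUnit_det,
      Matrix.rank_transpose]
    rw [Matrix.det_diagonal]
    exact IsUnit.mk0 _ (Finset.prod_ne_zero_iff.2 fun i _ => pow_ne_zero _ (neg_ne_zero.2 one_ne_zero))
  have hBrank : finrank K ↥(LinearMap.range (Matrix.toLin' B)) = B.rank := by
    rw [Matrix.toLin'_apply', ← Matrix.rank]
  rw [hMrank, hBrank, Module.finrank_fintype_fun_eq_card, Module.finrank_fintype_fun_eq_card] at hk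
  -- the kernel of the boundary map of the product
  let Φ : (ι × κ → K) ≃ₗ[K] ((κ → K) →ₗ[K] (ι → K)) :=
    (LinearEquiv.curry K K ι κ).trans ((Matrix.ofLinearEquiv K).trans Matrix.toLin')
  have hΦ : ∀ x, Φ x = Matrix.toLin' (Matrix.of fun i k => x (i, k)) := fun x => rfl
  have hkey : ∀ x, sylv (Matrix.toLin' M) (Matrix.toLin' B) (Φ x) =
      Φ (fun a => (-1) ^ deg a.1 * boundaryMap K (prodMatrix deg D D') x a) := by
    intro x
    rw [hΦ, hΦ]
    change Matrix.toLin' M ∘ₗ _ + _ ∘ₗ Matrix.toLin' B = _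
    rw [← Matrix.toLin'_mul, ← Matrix.toLin'_mul, ← map_add]
    congr 1
    ext j l
    rw [Matrix.add_apply, Matrix.mul_apply, Matrix.mul_apply, Matrix.of_apply, boundaryMap_apply,
      Fintype.sum_prod_type]
    have h1 : ∀ i k, x (i, k) * ((prodMatrix deg D D' (i, k) (j, l) : ℤ) : K) =
        (if k = l then x (i, l) * (D i j : K) else 0) +
        (if i = j then (-1 : K) ^ deg j * (x (j, k) * (D' k l : K)) else 0) := by
      intro i k
      simp only [prodMatrix]
      by_cases hk : k = l <;> by_cases hi : i = j <;> simp [hk, hi] <;> ring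
    simp only [h1, Finset.sum_add_distrib, Finset.sum_ite_eq', Finset.mem_univ, if_true]
    have h2 : ∑ i : ι, ∑ k : κ, (if i = j then (-1 : K) ^ deg j * (x (j, k) * (D' k l : K)) else 0) =
        (-1 : K) ^ deg j * ∑ k : κ, x (j, k) * (D' k l : K) := by
      rw [Finset.sum_eq_single j]
      · simp [Finset.mul_sum]
      · intro b _ hb
        simp [hb]
      · simp
    rw [h2, mul_add, ← mul_assoc ((-1 : K) ^ deg j), ← pow_add, Even.neg_one_pow ⟨_, rfl⟩, one_mul]
    congr 1
    rw [Finset.mul_sum]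
    refine Finset.sum_congr rfl fun i _ => ?_
    rw [hM, Matrix.diagonal_mul, Matrix.transpose_apply, Matrix.map_apply, Matrix.of_apply]
    ring
  have hker : finrank K ↥(LinearMap.ker (boundaryMap K (prodMatrix deg D D'))) =
      finrank K ↥(LinearMap.ker (sylv (Matrix.toLin' M) (Matrix.toLin' B))) := by
    have : LinearMap.ker (boundaryMap K (prodMatrix deg D D')) =
        (LinearMap.ker (sylv (Matrix.toLin' M) (Matrix.toLin' B))).comap (Φ : _ →ₗ[K] _) := by
      ext x
      rw [Submodule.mem_comap, LinearMap.mem_ker, LinearMap.mem_ker]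
      change _ ↔ sylv (Matrix.toLin' M) (Matrix.toLin' B) (Φ x) = 0
      rw [hkey, LinearEquiv.map_eq_zero_iff]
      constructor
      · intro h
        funext a
        simp [h]
      · intro h
        funext a
        have := congrFun h a
        simpa using this
    rw [this]
    exact (LinearEquiv.ofSubmodule' Φ _).finrank_eq
  have hrn := LinearMap.finrank_range_add_finrank_ker (boundaryMap K (prodMatrix deg D D'))
  have hr : finrank K ↥(LinearMap.range (boundaryMap K (prodMatrix deg D D'))) =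
      ((prodMatrix deg D D').map (Int.cast : ℤ → K)).rank := by
    rw [← Matrix.rank_transpose, Matrix.rank, Matrix.mulVecLin_transpose]
    rfl
  rw [hr, hker, Module.finrank_fintype_fun_eq_card] at hrn
  rw [Fintype.card_prod] at hrn ⊢
  push_cast
  have hrn' : (((prodMatrix deg D D').map (Int.cast : ℤ → K)).rank : ℤ) +
      finrank K ↥(LinearMap.ker (sylv (Matrix.toLin' M) (Matrix.toLin' B))) =
      (Fintype.card ι : ℤ) * Fintype.card κ := by exact_mod_cast hrn
  rw [hk] at hrn'
  linear_combination (-2) * hrn'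

end Product

end Pool.Agent.Lib.MP_228c3b_gt
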