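import Pool.Agent.Lib.MP_228c3b_gt.Kazhdan

/-!
# MP_228c3b_gt: vanishing of the torsion growth of `X × X` forces the approximation of mod `p` Betti numbers
-/

set_option autoImplicit false

namespace Pool.Agent.Lib.MP_228c3b_gt

open Module Filter Topology
open scoped Classical

section Key

variable {G : Type} [Group G]

/-- The total Betti number of a finite cover over any field. -/
theorem total_betti (K : Type) [Field K] (C : CellComplex G) (N : Subgroup G) [N.Normal] [N.FiniteIndex]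
    {M : ℕ} (hM : ∀ a, C.deg a < M) :
    letI : Fintype (G ⧸ N) := Fintype.ofFinite _
    (((∑ n ∈ Finset.range M, C.betti K N n : ℕ) : ℕ) : ℤ) =
      (Fintype.card (C.Cell × (G ⧸ N)) : ℤ) - 2 * ((C.coverMatrix N).map (Int.cast : ℤ → K)).rank := by
  let _ : Fintype (G ⧸ N) := Fintype.ofFinite _
  have h := sum_betti K (coverMatrix_graded N C) (coverMatrix_sq N C) (N := M) (fun a => hM a.1)
  change (((∑ n ∈ Finset.range M, bettiOf K (fun a : C.Cell × (G ⧸ N) => C.deg a.1) (C.coverMatrix N) n : ℕ)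
    : ℕ) : ℤ) = _
  rw [← h]
  push_cast
  ring

/-- The total Betti number of the finite cover of `X × X` is the square of that of the finite cover of `X`. -/
theorem total_betti_prod (K : Type) [Field K] (C : CellComplex G) (N : Subgroup G) [N.Normal] [N.FiniteIndex]
    [(N.prod N).FiniteIndex] {M M' : ℕ} (hM : ∀ a, C.deg a < M) (hM' : ∀ a, (C.prod C).deg a < M') :
    (∑ n ∈ Finset.range M', (C.prod C).betti K (N.prod N) n : ℕ) =
      (∑ n ∈ Finset.range M, C.betti K N n : ℕ) ^ 2 := by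
  let _ : Fintype (G ⧸ N) := Fintype.ofFinite _
  let _ : Fintype ((G × G) ⧸ (N.prod N)) := Fintype.ofFinite _
  have h1 := total_betti K C N hM
  have h2 := total_betti K (C.prod C) (N.prod N) hM'
  have h3 := card_sub_rank_prod K (D' := C.coverMatrix N) (coverMatrix_graded N C) (coverMatrix_sq N C)
    (coverMatrix_sq N C)
  have h4 : (((C.prod C).coverMatrix (N.prod N)).map (Int.cast : ℤ → K)).rank =
      ((prodMatrix (fun a : C.Cell × (G ⧸ N) => C.deg a.1) (C.coverMatrix N)
        (C.coverMatrix N)).map (Int.cast : ℤ → K)).rank := by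
    rw [coverMatrix_prod N N C C, ← Matrix.submatrix_map]
    exact Matrix.rank_submatrix _ _ _
  have h5 : Fintype.card ((C.prod C).Cell × ((G × G) ⧸ (N.prod N))) =
      Fintype.card ((C.Cell × (G ⧸ N)) × (C.Cell × (G ⧸ N))) := Fintype.card_congr (cellEquiv N N C C)
  rw [h4, h5, h3, ← h1] at h2
  have h6 : ((∑ n ∈ Finset.range M', (C.prod C).betti K (N.prod N) n : ℕ) : ℤ) =
      (((∑ n ∈ Finset.range M, C.betti K N n : ℕ) ^ 2 : ℕ) : ℤ) := by
    rw [h2]
    push_cast
    ring
  exact_mod_cast h6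

theorem betti_rat_le' (K : Type) [Field K] (C : CellComplex G) (N : Subgroup G) [N.Normal] [N.FiniteIndex]
    (n : ℕ) : C.betti ℚ N n ≤ C.betti K N n := by
  let _ : Fintype (G ⧸ N) := Fintype.ofFinite _
  exact betti_rat_le K (coverMatrix_graded N C) (coverMatrix_sq N C) n

/-- The main inequality: the excess of the mod `p` Betti numbers of a finite cover of `X` is controlled by
the torsion of the homology of the finite cover of `X × X`. -/
theorem key (C : CellComplex G) (N : Subgroup G) [N.Normal] [N.FiniteIndex] [(N.prod N).FiniteIndex]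
    (p : ℕ) [Fact p.Prime] (n : ℕ) {M : ℕ} (hM : ∀ a, (C.prod C).deg a < M) :
    ((C.betti (ZMod p) N n : ℝ) - C.betti ℚ N n) ^ 2 * Real.log p ≤
      2 * ∑ m ∈ Finset.range M, Real.log ((C.prod C).torsionOrder (N.prod N) m) := by
  have hM1 : ∀ a, C.deg a < max M (n + 1) := fun a => by
    have := hM (a, a)
    have h2 : C.deg a + C.deg a < M := this
    exact lt_of_lt_of_le (by omega) (le_max_left _ _)
  set F : ℕ := ∑ m ∈ Finset.range (max M (n + 1)), C.betti (ZMod p) N m with hF
  set B : ℕ := ∑ m ∈ Finset.range (max M (n + 1)), C.betti ℚ N m with hB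
  have hF2 := total_betti_prod (ZMod p) C N hM1 hM
  have hB2 := total_betti_prod ℚ C N hM1 hM
  rw [← hF] at hF2
  rw [← hB] at hB2
  have hsum : ((∑ m ∈ Finset.range M, (C.prod C).betti (ZMod p) (N.prod N) m : ℕ) : ℝ) * Real.log p ≤
      ((∑ m ∈ Finset.range M, (C.prod C).betti ℚ (N.prod N) m : ℕ) : ℝ) * Real.log p +
        2 * ∑ m ∈ Finset.range M, Real.log ((C.prod C).torsionOrder (N.prod N) m) := by
    let _ : Fintype ((G × G) ⧸ (N.prod N)) := Fintype.ofFinite _
    exact sum_betti_le p (coverMatrix_graded (N.prod N) (C.prod C)) (coverMatrix_sq (N.prod N) (C.prod C))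
      (N := M) (fun a => hM a.1)
  rw [hF2, hB2] at hsum
  push_cast at hsum
  have hle : ∀ m, C.betti ℚ N m ≤ C.betti (ZMod p) N m := fun m => betti_rat_le' (ZMod p) C N m
  have hn : n ∈ Finset.range (max M (n + 1)) :=
    Finset.mem_range.2 (lt_of_lt_of_le (Nat.lt_succ_self n) (le_max_right _ _))
  have h1 : (C.betti (ZMod p) N n : ℝ) - C.betti ℚ N n ≤ (F : ℝ) - B := by
    have h2 : ((F : ℝ) - B) = ∑ m ∈ Finset.range (max M (n + 1)),
        ((C.betti (ZMod p) N m : ℝ) - C.betti ℚ N m) := by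
      rw [Finset.sum_sub_distrib, hF, hB]
      push_cast
      rfl
    rw [h2]
    exact Finset.single_le_sum (f := fun m => (C.betti (ZMod p) N m : ℝ) - C.betti ℚ N m)
      (fun m _ => sub_nonneg.2 (by exact_mod_cast hle m)) hn
  have h0 : (0 : ℝ) ≤ (C.betti (ZMod p) N n : ℝ) - C.betti ℚ N n :=
    sub_nonneg.2 (by exact_mod_cast hle n)
  have h3 : ((C.betti (ZMod p) N n : ℝ) - C.betti ℚ N n) ^ 2 ≤ ((F : ℝ) - B) ^ 2 := by
    exact pow_le_pow_left₀ h0 h1 2
  have hB0 : (0 : ℝ) ≤ B := Nat.cast_nonneg _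
  have h4 : ((F : ℝ) - B) ^ 2 ≤ (F : ℝ) ^ 2 - (B : ℝ) ^ 2 := by nlinarith [h0.trans h1]
  have hlog : 0 ≤ Real.log p := Real.log_natCast_nonneg p
  calc ((C.betti (ZMod p) N n : ℝ) - C.betti ℚ N n) ^ 2 * Real.log p
      ≤ ((F : ℝ) ^ 2 - (B : ℝ) ^ 2) * Real.log p := mul_le_mul_of_nonneg_right (h3.trans h4) hlog
    _ ≤ _ := by linarith

/-- Approximation of the mod `p` Betti numbers, uniformly in the prime and in the degree, if the torsion
growth of `X × X` vanishes along `G_i × G_i`. -/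
theorem approx (C : CellComplex G) (N : NormalChain G)
    (hT : ∀ n, TorsionGrowthVanishes (C.prod C) N.square n) {ε : ℝ} (hε : 0 < ε) :
    ∀ᶠ i in atTop, ∀ (p : ℕ) [Fact p.Prime] (n : ℕ),
      (C.betti (ZMod p) (N.grp i) n : ℝ) - C.betti ℚ (N.grp i) n ≤ ε * (N.grp i).index := by
  obtain ⟨M, hM⟩ : ∃ M : ℕ, ∀ a, (C.prod C).deg a < M := by
    refine ⟨Finset.univ.sup (C.prod C).deg + 1, fun a => Nat.lt_succ_of_le (Finset.le_sup (Finset.mem_univ a))⟩
  have h1 : Tendsto (fun i => ∑ m ∈ Finset.range M,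
      Real.log ((C.prod C).torsionOrder (N.square.grp i) m : ℝ) / ((N.square.grp i).index : ℝ)) atTop (𝓝 0) := by
    have := tendsto_finsetSum (Finset.range M) (fun m _ => hT m)
    simpa using this
  have hlog : 0 < Real.log 2 := Real.log_pos (by norm_num)
  have h2 : (0 : ℝ) < ε ^ 2 * Real.log 2 / 2 := by positivity
  filter_upwards [h1.eventually (gt_mem_nhds h2)] with i hi
  intro p _ n
  have hidx : ((N.square.grp i).index : ℝ) = ((N.grp i).index : ℝ) ^ 2 := by
    have : (N.square.grp i).index = (N.grp i).index * (N.grp i).index := Subgroup.index_prod _ _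
    rw [this, sq]
    push_cast
    rfl
  have hpos : (0 : ℝ) < (N.grp i).index := by
    exact_mod_cast Nat.pos_of_ne_zero (N.finiteIndex i).index_ne_zero
  have : ((N.grp i).prod (N.grp i)).FiniteIndex := N.square.finiteIndex i
  have h3' := key C (N.grp i) p n hM
  have h3 : ((C.betti (ZMod p) (N.grp i) n : ℝ) - C.betti ℚ (N.grp i) n) ^ 2 * Real.log 2 ≤
      2 * ∑ m ∈ Finset.range M, Real.log ((C.prod C).torsionOrder ((N.grp i).prod (N.grp i)) m) := by
    refine le_trans (mul_le_mul_of_nonneg_left ?_ (sq_nonneg _)) h3'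
    exact Real.log_le_log (by norm_num) (by exact_mod_cast (Fact.out : p.Prime).two_le)
  rw [← Finset.sum_div, div_lt_iff₀ (by rw [hidx]; positivity), hidx] at hi
  have h4 : ((C.betti (ZMod p) (N.grp i) n : ℝ) - C.betti ℚ (N.grp i) n) ^ 2 * Real.log 2 <
      (ε * (N.grp i).index) ^ 2 * Real.log 2 := by
    have h5 : (∑ m ∈ Finset.range M, Real.log ((C.prod C).torsionOrder ((N.grp i).prod (N.grp i)) m : ℝ)) <
      ε ^ 2 * Real.log 2 / 2 * ((N.grp i).index : ℝ) ^ 2 := hi
    calc _ ≤ _ := h3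
      _ < 2 * (ε ^ 2 * Real.log 2 / 2 * ((N.grp i).index : ℝ) ^ 2) := by linarith
      _ = _ := by ring
  have h6 := lt_of_mul_lt_mul_right h4 hlog.le
  exact (abs_lt_of_sq_lt_sq' h6 (by positivity)).2.le

/-- The vanishing of the mod `p` homology growth in a degree in which there is no nonzero harmonic
`L²`-chain. -/
theorem singer (C : CellComplex G) (N : NormalChain G)
    (hT : ∀ n, TorsionGrowthVanishes (C.prod C) N.square n) (n : ℕ) (hn : C.L2BettiVanishes n) {ε : ℝ}
    (hε : 0 < ε) :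
    ∀ᶠ i in atTop, ∀ (p : ℕ) [Fact p.Prime],
      (C.betti (ZMod p) (N.grp i) n : ℝ) ≤ ε * (N.grp i).index := by
  filter_upwards [approx C N hT (half_pos hε), kazhdan C N n hn (half_pos hε)] with i h1 h2
  intro p _
  have h3 := h1 p n
  have h4 : (C.betti ℚ (N.grp i) n : ℝ) ≤ C.betti ℝ (N.grp i) n := by
    exact_mod_cast betti_rat_le' ℝ C (N.grp i) n
  linarith

theorem betti_eq_zero_of_dim_lt (K : Type) [Field K] (C : CellComplex G) (N : Subgroup G) [N.Normal]
    [N.FiniteIndex] {n : ℕ} (hn : C.dim < n) : C.betti K N n = 0 := by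
  let _ : Fintype (G ⧸ N) := Fintype.ofFinite _
  have h1 := betti_add_rk K (coverMatrix_graded N C) (coverMatrix_sq N C) n
  have h2 : chains K (fun a : C.Cell × (G ⧸ N) => C.deg a.1) n = ⊥ :=
    chains_eq_bot K (fun a => ((Finset.le_sup (f := C.deg) (Finset.mem_univ a.1)).trans_lt hn).ne)
  rw [h2, finrank_bot] at h1
  change bettiOf K (fun a : C.Cell × (G ⧸ N) => C.deg a.1) (C.coverMatrix N) n = 0
  omega

/-- Both statements, uniformly in the prime and in the degree. -/
theorem main (C : CellComplex G) (N : NormalChain G)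
    (hT : ∀ n, TorsionGrowthVanishes (C.prod C) N.square n) {ε : ℝ} (hε : 0 < ε) :
    ∀ᶠ i in atTop, ∀ (p : ℕ) [Fact p.Prime] (n : ℕ),
      (C.betti (ZMod p) (N.grp i) n : ℝ) ≤ C.betti ℚ (N.grp i) n + ε * (N.grp i).index ∧
      (C.L2BettiVanishes n → (C.betti (ZMod p) (N.grp i) n : ℝ) ≤ ε * (N.grp i).index) := by
  have h1 : ∀ᶠ i in atTop, ∀ n ∈ Finset.range (C.dim + 1), C.L2BettiVanishes n →
      ∀ (p : ℕ) [Fact p.Prime], (C.betti (ZMod p) (N.grp i) n : ℝ) ≤ ε * (N.grp i).index := by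
    rw [Filter.eventually_all_finset]
    intro n _
    by_cases hn : C.L2BettiVanishes n
    · filter_upwards [singer C N hT n hn hε] with i hi _
      exact hi
    · exact Filter.Eventually.of_forall fun _ h => absurd h hn
  filter_upwards [approx C N hT hε, h1] with i h2 h3
  intro p _ n
  refine ⟨by have := h2 p n; linarith, fun hn => ?_⟩
  by_cases hd : n ≤ C.dim
  · exact h3 n (Finset.mem_range.2 (Nat.lt_succ_of_le hd)) hn p
  · rw [betti_eq_zero_of_dim_lt (ZMod p) C (N.grp i) (not_le.1 hd)]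
    have : (0 : ℝ) ≤ ε * (N.grp i).index := by positivity
    simpa using this

end Key

end Pool.Agent.Lib.MP_228c3b_gt
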