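import Pool.Agent.Lib.MP_228c3b_gt.Defs

/-!
# MP_228c3b_gt: Betti numbers, ranks and torsion of based integral complexes
-/

set_option autoImplicit false

namespace Pool.Agent.Lib.MP_228c3b_gt

open Module

section Ranks

variable {ι : Type} [Fintype ι]

/-- The incidence matrix lowers the degree by one. -/
def Graded (deg : ι → ℕ) (D : Matrix ι ι ℤ) : Prop := ∀ i j, D i j ≠ 0 → deg i = deg j + 1

variable {deg : ι → ℕ} {D : Matrix ι ι ℤ}

theorem boundaryMap_apply (R : Type) [CommRing R] (D : Matrix ι ι ℤ) (x : ι → R) (j : ι) :
    boundaryMap R D x j = ∑ i, x i * (D i j : R) := rfl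

theorem boundaryMap_mem_chains (R : Type) [CommRing R] (hg : Graded deg D) {n : ℕ} {x : ι → R}
    (hx : x ∈ chains R deg (n + 1)) : boundaryMap R D x ∈ chains R deg n := by
  intro j hj
  rw [boundaryMap_apply]
  refine Finset.sum_eq_zero fun i _ => ?_
  by_cases hi : deg i = n + 1
  · by_cases hD : D i j = 0
    · simp [hD]
    · exact absurd (by have := hg i j hD; omega) hj
  · rw [hx i hi, zero_mul]

theorem boundaryMap_chains_zero (R : Type) [CommRing R] (hg : Graded deg D) {x : ι → R}
    (hx : x ∈ chains R deg 0) : boundaryMap R D x = 0 := by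
  funext j
  rw [boundaryMap_apply]
  refine Finset.sum_eq_zero fun i _ => ?_
  by_cases hi : deg i = 0
  · by_cases hD : D i j = 0
    · simp [hD]
    · exact absurd (hg i j hD) (by omega)
  · rw [hx i hi, zero_mul]

theorem boundaryMap_boundaryMap (R : Type) [CommRing R] (hsq : D * D = 0) (x : ι → R) :
    boundaryMap R D (boundaryMap R D x) = 0 := by
  have h : (D.map (Int.cast : ℤ → R)) * (D.map (Int.cast : ℤ → R)) = 0 := by
    have := Matrix.map_mul (L := D) (M := D) (f := Int.castRingHom R)
    rw [hsq] at this
    ext i j
    have := congrFun (congrFun this i) j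
    simpa using this.symm
  change Matrix.vecMul (Matrix.vecMul x _) _ = 0
  rw [Matrix.vecMul_vecMul, h, Matrix.vecMul_zero]

theorem boundaries_le_cycles (R : Type) [CommRing R] (hg : Graded deg D) (hsq : D * D = 0) (n : ℕ) :
    boundaries R deg D n ≤ cycles R deg D n := by
  rintro _ ⟨x, hx, rfl⟩
  exact ⟨boundaryMap_mem_chains R hg hx, boundaryMap_boundaryMap R hsq x⟩

/-- The rank of the boundary map on the chains of degree `n`. -/
noncomputable def rk (K : Type) [Field K] (deg : ι → ℕ) (D : Matrix ι ι ℤ) (n : ℕ) : ℕ :=
  finrank K ↥((chains K deg n).map (boundaryMap K D))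

theorem rk_zero (K : Type) [Field K] (hg : Graded deg D) : rk K deg D 0 = 0 := by
  have : (chains K deg 0).map (boundaryMap K D) = ⊥ := by
    rw [eq_bot_iff]
    rintro _ ⟨x, hx, rfl⟩
    rw [boundaryMap_chains_zero K hg hx]
    exact Submodule.zero_mem _
  rw [rk, this, finrank_bot]

omit [Fintype ι] in
theorem chains_eq_bot (K : Type) [Field K] {n : ℕ} (hn : ∀ i, deg i ≠ n) : chains K deg n = ⊥ := by
  rw [eq_bot_iff]
  intro x hx
  rw [Submodule.mem_bot]
  funext i
  exact hx i (hn i)

theorem rk_eq_zero_of_large (K : Type) [Field K] {n : ℕ} (hn : ∀ i, deg i ≠ n) : rk K deg D n = 0 := by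
  rw [rk, chains_eq_bot K hn, Submodule.map_bot, finrank_bot]

theorem betti_add_rk (K : Type) [Field K] (hg : Graded deg D) (hsq : D * D = 0) (n : ℕ) :
    bettiOf K deg D n + rk K deg D (n + 1) + rk K deg D n = finrank K ↥(chains K deg n) := by
  have h1 : finrank K (Homology K deg D n) +
      finrank K ↥((boundaries K deg D n).comap (cycles K deg D n).subtype) =
      finrank K ↥(cycles K deg D n) := Submodule.finrank_quotient_add_finrank _
  have h2 : finrank K ↥((boundaries K deg D n).comap (cycles K deg D n).subtype) = rk K deg D (n + 1) :=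
    (Submodule.comapSubtypeEquivOfLe (boundaries_le_cycles K hg hsq n)).finrank_eq
  have h3 : finrank K ↥(LinearMap.range ((boundaryMap K D).domRestrict (chains K deg n))) +
      finrank K ↥(LinearMap.ker ((boundaryMap K D).domRestrict (chains K deg n))) =
      finrank K ↥(chains K deg n) := LinearMap.finrank_range_add_finrank_ker _
  have h4 : LinearMap.range ((boundaryMap K D).domRestrict (chains K deg n)) =
      (chains K deg n).map (boundaryMap K D) := LinearMap.range_domRestrict _ _
  have h5 : finrank K ↥(LinearMap.ker ((boundaryMap K D).domRestrict (chains K deg n))) =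
      finrank K ↥(cycles K deg D n) := by
    have : (cycles K deg D n) = (LinearMap.ker ((boundaryMap K D).domRestrict (chains K deg n))).map
        (chains K deg n).subtype := by
      ext x
      constructor
      · rintro ⟨hx, hx'⟩
        exact ⟨⟨x, hx⟩, hx', rfl⟩
      · rintro ⟨y, hy, rfl⟩
        exact ⟨y.2, hy⟩
    rw [this]
    exact (Submodule.finrank_map_subtype_eq _ _).symm
  rw [h4, h5] at h3
  have h6 : rk K deg D n = finrank K ↥((chains K deg n).map (boundaryMap K D)) := rfl
  have h7 : bettiOf K deg D n = finrank K (Homology K deg D n) := rfl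
  omega

/-- The chains of degree less than `k`. -/
def chainsLT (K : Type) [Field K] (deg : ι → ℕ) (k : ℕ) : Submodule K (ι → K) where
  carrier := {x | ∀ i, k ≤ deg i → x i = 0}
  add_mem' := fun {x y} hx hy i hi => by simp [hx i hi, hy i hi]
  zero_mem' := fun _ _ => rfl
  smul_mem' := fun c x hx i hi => by simp [hx i hi]

omit [Fintype ι] in
theorem chainsLT_succ (K : Type) [Field K] (k : ℕ) :
    chainsLT K deg (k + 1) = chainsLT K deg k ⊔ chains K deg k := by
  apply le_antisymm
  · intro x hx
    rw [Submodule.mem_sup]
    refine ⟨fun i => if deg i < k then x i else 0, ?_, fun i => if deg i = k then x i else 0, ?_, ?_⟩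
    · intro i hi
      simp [Nat.not_lt.2 hi]
    · intro i hi
      simp [hi]
    · funext i
      by_cases h1 : deg i < k
      · simp [h1, h1.ne]
      · by_cases h2 : deg i = k
        · simp [h2]
        · have : x i = 0 := hx i (by omega)
          simp [h1, h2, this]
  · apply sup_le
    · intro x hx i hi
      exact hx i (by omega)
    · intro x hx i hi
      exact hx i (by omega)

theorem finrank_map_chainsLT (K : Type) [Field K] (hg : Graded deg D) (k : ℕ) :
    finrank K ↥((chainsLT K deg k).map (boundaryMap K D)) = ∑ n ∈ Finset.range k, rk K deg D n := by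
  induction k with
  | zero =>
    have : chainsLT K deg 0 = ⊥ := by
      rw [eq_bot_iff]
      intro x hx
      rw [Submodule.mem_bot]
      funext i
      exact hx i (Nat.zero_le _)
    rw [this, Submodule.map_bot, finrank_bot, Finset.sum_range_zero]
  | succ k ih =>
    rw [Finset.sum_range_succ, ← ih, chainsLT_succ, Submodule.map_sup]
    have hinf : ((chainsLT K deg k).map (boundaryMap K D)) ⊓ ((chains K deg k).map (boundaryMap K D)) = ⊥ := by
      rw [eq_bot_iff]
      rintro y ⟨⟨x, hx, rfl⟩, ⟨z, hz, hzx⟩⟩
      rw [Submodule.mem_bot]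
      rcases k with _ | k
      · rw [← hzx, boundaryMap_chains_zero K hg hz]
      · funext j
        by_cases hj : deg j = k
        · rw [boundaryMap_apply]
          refine Finset.sum_eq_zero fun i _ => ?_
          by_cases hD : D i j = 0
          · simp [hD]
          · rw [hx i (by have := hg i j hD; omega), zero_mul]
        · rw [← hzx]
          exact boundaryMap_mem_chains K hg hz j hj
    have := Submodule.finrank_sup_add_finrank_inf_eq ((chainsLT K deg k).map (boundaryMap K D))
      ((chains K deg k).map (boundaryMap K D))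
    rw [hinf, finrank_bot, add_zero] at this
    exact this

theorem finrank_chainsLT (K : Type) [Field K] (k : ℕ) :
    finrank K ↥(chainsLT K deg k) = ∑ n ∈ Finset.range k, finrank K ↥(chains K deg n) := by
  induction k with
  | zero =>
    have : chainsLT K deg 0 = ⊥ := by
      rw [eq_bot_iff]
      intro x hx
      rw [Submodule.mem_bot]
      funext i
      exact hx i (Nat.zero_le _)
    rw [this, finrank_bot, Finset.sum_range_zero]
  | succ k ih =>
    rw [Finset.sum_range_succ, ← ih, chainsLT_succ]
    have hinf : (chainsLT K deg k) ⊓ (chains K deg k) = ⊥ := by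
      rw [eq_bot_iff]
      rintro x ⟨hx, hx'⟩
      rw [Submodule.mem_bot]
      funext i
      by_cases hi : deg i = k
      · exact hx i hi.ge
      · exact hx' i hi
    have := Submodule.finrank_sup_add_finrank_inf_eq (chainsLT K deg k) (chains K deg k)
    rw [hinf, finrank_bot, add_zero] at this
    exact this

omit [Fintype ι] in
theorem chainsLT_eq_top (K : Type) [Field K] {N : ℕ} (hN : ∀ i, deg i < N) : chainsLT K deg N = ⊤ := by
  rw [eq_top_iff]
  intro x _ i hi
  exact absurd (hN i) (by omega)

/-- The sum of the ranks of the boundary maps is the rank of the incidence matrix. -/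
theorem sum_rk (K : Type) [Field K] (hg : Graded deg D) {N : ℕ} (hN : ∀ i, deg i < N) :
    ∑ n ∈ Finset.range N, rk K deg D n = (D.map (Int.cast : ℤ → K)).rank := by
  rw [← finrank_map_chainsLT K hg, chainsLT_eq_top K hN, Submodule.map_top, ← Matrix.rank_transpose,
    Matrix.rank, Matrix.mulVecLin_transpose]
  rfl

/-- The sum of the Betti numbers. -/
theorem sum_betti (K : Type) [Field K] (hg : Graded deg D) (hsq : D * D = 0) {N : ℕ} (hN : ∀ i, deg i < N) :
    ∑ n ∈ Finset.range N, bettiOf K deg D n + 2 * (D.map (Int.cast : ℤ → K)).rank = Fintype.card ι := by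
  have h1 : ∑ n ∈ Finset.range N, (bettiOf K deg D n + rk K deg D (n + 1) + rk K deg D n) =
      Fintype.card ι := by
    rw [Finset.sum_congr rfl fun n _ => betti_add_rk K hg hsq n, ← finrank_chainsLT, chainsLT_eq_top K hN,
      finrank_top, Module.finrank_fintype_fun_eq_card]
  have h2 : ∑ n ∈ Finset.range N, rk K deg D (n + 1) = ∑ n ∈ Finset.range N, rk K deg D n := by
    have h3 := Finset.sum_range_succ (fun n => rk K deg D n) N
    have h4 := Finset.sum_range_succ' (fun n => rk K deg D n) N
    rw [rk_zero K hg] at h4
    rw [rk_eq_zero_of_large K (fun i => (hN i).ne)] at h3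
    omega
  rw [Finset.sum_add_distrib, Finset.sum_add_distrib, h2, sum_rk K hg hN] at h1
  omega

end Ranks

end Pool.Agent.Lib.MP_228c3b_gt
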